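import Mathlib

namespace Pool.Agent.MP_6e64bc_an.H26

open Complex Metric Set

theorem exists_log (g : ℂ → ℂ) (hg : DifferentiableOn ℂ g (ball 0 1))
    (h0 : ∀ z ∈ ball (0 : ℂ) 1, g z ≠ 0) (a : ℂ) (ha : exp a = g 0) :
    ∃ M : ℂ → ℂ, DifferentiableOn ℂ M (ball 0 1) ∧ M 0 = a ∧
      ∀ z ∈ ball (0 : ℂ) 1, exp (M z) = g z := by
  have hd : DifferentiableOn ℂ (fun z => deriv g z / g z) (ball 0 1) :=
    (hg.deriv isOpen_ball).div hg h0
  obtain ⟨M, hM0, hM⟩ := hd.isExactOn_ball.with_val_at 0 a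
  have hMd : DifferentiableOn ℂ M (ball 0 1) := fun z hz =>
    (hM z hz).differentiableAt.differentiableWithinAt
  refine ⟨M, hMd, hM0, fun z hz => ?_⟩
  have hc : ∀ w ∈ ball (0 : ℂ) 1, HasDerivAt (fun z => g z * exp (-M z)) 0 w := fun w hw => by
    have h1 := ((hg w hw).differentiableAt (isOpen_ball.mem_nhds hw)).hasDerivAt
    have h2 := h1.mul (hM w hw).neg.cexp
    refine h2.congr_deriv ?_
    have := h0 w hw
    simp only [Pi.neg_apply]
    field_simp; ring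
  have := isOpen_ball.is_const_of_deriv_eq_zero (convex_ball (0 : ℂ) 1).isPreconnected
    (fun w hw => (hc w hw).differentiableAt.differentiableWithinAt)
    (fun w hw => (hc w hw).deriv) hz (mem_ball_self one_pos)
  simp only [hM0, ← ha, exp_neg] at this
  have h3 := exp_ne_zero (M z)
  have h4 := exp_ne_zero a
  field_simp at this
  exact this.symm

theorem deriv_le (f : ℂ → ℂ) (hf : DifferentiableOn ℂ f (ball 0 1)) (M : ℝ)
    (hM : ∀ z ∈ ball (0 : ℂ) 1, ‖f z‖ ≤ M) (z : ℂ) (hz : z ∈ ball (0 : ℂ) 1) :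
    ‖deriv f z‖ ≤ 2 * M / (1 - ‖z‖) := by
  have hz' : ‖z‖ < 1 := by simpa using hz
  have hs : ball z (1 - ‖z‖) ⊆ ball 0 1 := ball_subset_ball' (by simp)
  refine norm_deriv_le_div_of_mapsTo_ball (hf.mono hs) (fun w hw => ?_) (by linarith)
  rw [mem_closedBall, dist_eq_norm]
  have := norm_sub_le (f w) (f z)
  linarith [hM w (hs hw), hM z hz]

theorem sq_mem {z : ℂ} (hz : z ∈ ball (0 : ℂ) 1) (k : ℕ) (hk : k ≠ 0) : z ^ k ∈ ball (0 : ℂ) 1 := by
  simp only [mem_ball_zero_iff, norm_pow] at *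
  exact pow_lt_one₀ (norm_nonneg _) hz hk

def Good (c : ℂ) (R : ℝ) (n : ℕ) (L : ℂ → ℂ) : Prop :=
  DifferentiableOn ℂ L (ball 0 1) ∧ (L 0).im = 0 ∧
    ∀ z ∈ ball (0 : ℂ) 1, z ≠ 0 → (fun w => w ^ 2 + c)^[n] (exp (L z) / z) = R / z ^ (2 ^ n)

theorem Good.big {c : ℂ} {R : ℝ} {n : ℕ} {L : ℂ → ℂ} (h : Good c R n L) (hR : 0 < R) (z : ℂ)
    (hz : z ∈ ball (0 : ℂ) 1) (h0 : z ≠ 0) : R < ‖(fun w => w ^ 2 + c)^[n] (exp (L z) / z)‖ := by
  rw [h.2.2 z hz h0, norm_div, norm_real, Real.norm_eq_abs, abs_of_pos hR]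
  have h1 : ‖z ^ (2 ^ n)‖ < 1 := by simpa using sq_mem hz (2 ^ n) (by positivity)
  have h2 : 0 < ‖z ^ (2 ^ n)‖ := norm_pos_iff.2 (pow_ne_zero _ h0)
  rw [lt_div_iff₀ h2]; nlinarith

theorem Good.step {c : ℂ} {R : ℝ} {n : ℕ} {L : ℂ → ℂ} (h : Good c R n L) (hR : 0 < R)
    (ht : ∀ n, ‖(fun w => w ^ 2 + c)^[n] 0‖ ≤ R) :
    ∃ L', Good c R (n + 1) L' ∧ (∀ z, L' (-z) = L' z) ∧
      ∀ z ∈ ball (0 : ℂ) 1, exp (L' z) ^ 2 = exp (L (z ^ 2)) - c * z ^ 2 := by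
  obtain ⟨M, hM, hM0, hMe⟩ := exists_log (fun w => exp (L w) - c * w)
    (h.1.cexp.sub (by fun_prop)) (fun w hw hc => by
      by_cases h0 : w = 0
      · simp [h0] at hc
      · have h1 := h.big hR w hw h0
        have h2 := ht (n + 1)
        rw [Function.iterate_succ_apply] at h2
        have : exp (L w) / w = 0 ^ 2 + c := by
          field_simp; linear_combination hc
        rw [this] at h1; linarith) (L 0) (by simp)
  have he : ∀ z ∈ ball (0 : ℂ) 1, exp (M (z ^ 2) / 2) ^ 2 = exp (L (z ^ 2)) - c * z ^ 2 := by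
    intro z hz
    rw [← exp_nat_mul, ← hMe _ (sq_mem hz 2 two_ne_zero)]
    congr 1; push_cast; ring
  refine ⟨fun z => M (z ^ 2) / 2, ⟨?_, ?_, ?_⟩, fun z => by simp, he⟩
  · exact (hM.comp (by fun_prop) (fun z hz => sq_mem hz 2 two_ne_zero)).div_const 2
  · simp [hM0, h.2.1]
  · intro z hz h0
    rw [Function.iterate_succ_apply]
    have : (exp (M (z ^ 2) / 2) / z) ^ 2 + c = exp (L (z ^ 2)) / z ^ 2 := by
      rw [div_pow, he z hz]; field_simp; ring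
    simp only [this]
    rw [h.2.2 _ (sq_mem hz 2 two_ne_zero) (pow_ne_zero _ h0), ← pow_mul, pow_succ' 2 n]

theorem exists_chain (c : ℂ) (R : ℝ) (hR : 0 < R)
    (ht : ∀ n, ‖(fun w => w ^ 2 + c)^[n] 0‖ ≤ R) :
    ∃ L : ℕ → ℂ → ℂ, (L 0 = fun _ => (Real.log R : ℂ)) ∧ ∀ n, Good c R n (L n) ∧
      (∀ z, L (n + 1) (-z) = L (n + 1) z) ∧
      ∀ z ∈ ball (0 : ℂ) 1, exp (L (n + 1) z) ^ 2 = exp (L n (z ^ 2)) - c * z ^ 2 := by
  have g0 : Good c R 0 (fun _ => (Real.log R : ℂ)) := by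
    refine ⟨by fun_prop, by simp, fun z _ _ => ?_⟩
    simp [← ofReal_exp, Real.exp_log hR]
  choose f hf using fun (n : ℕ) (x : {L // Good c R n L}) => x.2.step hR ht
  let s : (n : ℕ) → {L // Good c R n L} := fun n =>
    Nat.rec ⟨_, g0⟩ (fun n x => ⟨f n x, (hf n x).1⟩) n
  exact ⟨fun n => (s n).1, rfl, fun n => ⟨(s n).2, (hf n (s n)).2⟩⟩

noncomputable def DD (L : ℂ → ℂ) (z : ℂ) : ℂ := exp (L z) * (1 - z * deriv L z)

theorem DD_rec {c : ℂ} {L L' : ℂ → ℂ} (hL : DifferentiableOn ℂ L (ball 0 1))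
    (hL' : DifferentiableOn ℂ L' (ball 0 1))
    (he : ∀ z ∈ ball (0 : ℂ) 1, exp (L' z) ^ 2 = exp (L (z ^ 2)) - c * z ^ 2)
    (z : ℂ) (hz : z ∈ ball (0 : ℂ) 1) : DD L' z * exp (L' z) = DD L (z ^ 2) := by
  have hz2 := sq_mem hz 2 two_ne_zero
  have h1 := ((hL' z hz).differentiableAt (isOpen_ball.mem_nhds hz)).hasDerivAt.cexp.pow 2
  have h2 := ((hL _ hz2).differentiableAt (isOpen_ball.mem_nhds hz2)).hasDerivAt.comp z
    (hasDerivAt_pow 2 z)
  have h3 := h2.cexp.sub ((hasDerivAt_pow 2 z).const_mul c)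
  have h4 := h1.unique (h3.congr_of_eventuallyEq
    (Filter.eventually_of_mem (isOpen_ball.mem_nhds hz) he))
  have h5 := he z hz
  simp only [Function.comp] at h4
  norm_num at h4
  unfold DD
  linear_combination h5 - z / 2 * h4

noncomputable def pt (r θ : ℝ) : ℂ := r * exp (θ * I)

theorem norm_pt (r θ : ℝ) (hr : 0 ≤ r) : ‖pt r θ‖ = r := by
  simp [pt, abs_of_nonneg hr]

theorem pt_mem {r : ℝ} (θ : ℝ) (hr : 0 ≤ r) (h1 : r < 1) : pt r θ ∈ ball (0 : ℂ) 1 := by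
  simpa [norm_pt r θ hr] using h1

theorem pt_pow (r θ : ℝ) (k : ℕ) : pt r θ ^ k = pt (r ^ k) (k * θ) := by
  rw [pt, pt, mul_pow, ← exp_nat_mul]; push_cast; congr 2; ring

theorem pt_add_pi (r θ : ℝ) : pt r (θ + Real.pi) = -pt r θ := by
  rw [pt, pt]; push_cast; rw [add_mul, exp_add, exp_pi_mul_I]; ring

@[fun_prop] theorem continuous_pt (r : ℝ) : Continuous (pt r) := by unfold pt; fun_prop

noncomputable def BB (g : ℝ → ℝ) : ℕ → ℝ → ℝ
  | 0, θ => g θ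
  | m + 1, θ => BB g m (θ / 2) + BB g m (θ / 2 + Real.pi)

theorem BB_nonneg (g : ℝ → ℝ) (hg : ∀ θ, 0 ≤ g θ) : ∀ m θ, 0 ≤ BB g m θ
  | 0, θ => hg θ
  | m + 1, _ => add_nonneg (BB_nonneg g hg m _) (BB_nonneg g hg m _)

theorem BB_cont (g : ℝ → ℝ) (hg : Continuous g) : ∀ m, Continuous (BB g m)
  | 0 => hg
  | m + 1 => by
    have := BB_cont g hg m
    exact (this.comp (by fun_prop)).add (this.comp (f := fun θ => θ / 2 + Real.pi) (by fun_prop))

theorem BB_int (g : ℝ → ℝ) (hg : Continuous g) : ∀ m,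
    ∫ θ in (0 : ℝ)..2 * Real.pi, BB g m θ = 2 ^ m * ∫ θ in (0 : ℝ)..2 * Real.pi, g θ
  | 0 => by simp [BB]
  | m + 1 => by
    have hc := BB_cont g hg m
    simp only [BB]
    rw [intervalIntegral.integral_add
      ((by fun_prop : Continuous fun θ => BB g m (θ / 2)).intervalIntegrable _ _)
      ((by fun_prop : Continuous fun θ => BB g m (θ / 2 + Real.pi)).intervalIntegrable _ _),
      intervalIntegral.integral_comp_div (BB g m) two_ne_zero,
      intervalIntegral.integral_comp_div_add (BB g m) two_ne_zero, ← smul_add,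
      show (0 : ℝ) / 2 + Real.pi = 2 * Real.pi / 2 by ring,
      intervalIntegral.integral_add_adjacent_intervals (hc.intervalIntegrable _ _)
        (hc.intervalIntegrable _ _),
      show 2 * Real.pi / 2 + Real.pi = 2 * Real.pi by ring, zero_div, BB_int g hg m]
    simp; ring

end Pool.Agent.MP_6e64bc_an.H26
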