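import Pool.Agent.MP_6e64bc_an.H26.Kern

namespace Pool.Agent.MP_6e64bc_an.H26

open Complex Metric Set

theorem cj {H : ℂ → ℂ} (hd : DifferentiableOn ℂ H (ball 0 1))
    (hH : ∀ z ∈ ball (0 : ℂ) 1, ‖H z‖ ≤ 1) (hne : ∀ z ∈ ball (0 : ℂ) 1, deriv H z ≠ 0)
    {δ : ℝ} (hδ : 0 < δ) (hδ1 : δ ≤ 1 / 2) (N : ℕ) (hN : 2 ≤ δ * N) :
    ∃ χ : ℂ → ℂ, Differentiable ℂ χ ∧ InjOn χ (ball 0 1) ∧
      (∀ z ∈ ball (0 : ℂ) 1, χ z ∈ ball (0 : ℂ) 1 ∧ deriv χ z ≠ 0 ∧ ‖χ z - z‖ ≤ δ) ∧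
      ((∫ θ in (0 : ℝ)..2 * Real.pi, ‖deriv H (pt (1 - δ) θ)‖)
        - 24 * Real.pi * (1 - δ / 2) ^ N / δ) / (512 * Real.pi * N) ≤ ‖co (H ∘ χ) N‖ := by
  have hpi := Real.pi_pos
  have hN4 : (4 : ℝ) ≤ N := by nlinarith [(Nat.cast_nonneg N : (0 : ℝ) ≤ N)]
  have hN0 : (0 : ℝ) < N := by linarith
  obtain ⟨b, hb⟩ : ∃ b : ℝ, b = 1 - δ / 2 := ⟨_, rfl⟩
  obtain ⟨q, hq⟩ : ∃ q : ℝ, q = (1 - δ) / b := ⟨_, rfl⟩
  obtain ⟨τ, hτ⟩ : ∃ τ : ℝ, τ = 1 - 1 / (2 * N) := ⟨_, rfl⟩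
  obtain ⟨E, hE⟩ : ∃ E : ℝ, E = 1 / (16 * N) := ⟨_, rfl⟩
  obtain ⟨ε, hε⟩ : ∃ ε : ℝ, ε = 1 / (128 * Real.pi * N) := ⟨_, rfl⟩
  rw [← hb]
  have hb0 : 3 / 4 ≤ b := by linarith
  have hb1 : b < 1 := by linarith
  have hq0 : 0 < q := hq ▸ div_pos (by linarith) (by linarith)
  have hqb : q ≤ b := by rw [hq, div_le_iff₀ (by linarith)]; nlinarith
  have hbq : b * q = 1 - δ := by rw [hq]; field_simp
  have hNδ : 1 / (2 * N) ≤ δ / 4 := by rw [div_le_iff₀ (by positivity)]; linarith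
  have hE1 : E = 1 / (2 * N) / 8 := by rw [hE]; field_simp; norm_num
  have hN1 : 0 < 1 / (2 * (N : ℝ)) := by positivity
  have hτ0 : 7 / 8 ≤ τ := by linarith
  have hτ1 : τ < 1 := by linarith
  have hE0 : 0 < E := by rw [hE]; positivity
  have hε0 : 0 < ε := by rw [hε]; positivity
  have hbτ : 1 / 2 ≤ b * τ := by nlinarith
  have hbτ1 : 0 ≤ 1 - b * τ := by nlinarith
  have hbτ2 : E + (1 - b * τ) * 1 ≤ δ := by nlinarith
  have hτz : ∀ z ∈ ball (0 : ℂ) 1, τ * ‖z‖ ≤ τ := fun z hz =>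
    mul_le_of_le_one_right (by linarith) (mem_ball_zero_iff.1 hz).le
  obtain ⟨p0, hp0, hp0b, hΛ⟩ := exists_poly (hd.deriv isOpen_ball) hne (b := b) (q := q)
    (M := 4 / δ) (by linarith) hb1 hq0 (by linarith) (fun z hz => by
      have := deriv_le H hd 1 hH z (by simpa [hz] using hb1)
      rw [hz] at this
      refine this.trans (le_of_eq ?_)
      rw [show 1 - b = δ / 2 by linarith]; field_simp; norm_num) N
  rw [hbq] at hΛ
  obtain ⟨p, hp⟩ : ∃ p : ℂ → ℂ, p = fun u => ε * p0 u := ⟨_, rfl⟩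
  have hpd : Differentiable ℂ p := hp ▸ hp0.const_mul _
  have hpb : ∀ u : ℂ, ‖u‖ ≤ 1 → ‖p u‖ ≤ E := fun u hu => by
    simp only [hp, norm_mul, norm_real, Real.norm_eq_abs, abs_of_pos hε0]
    calc ε * ‖p0 u‖ ≤ ε * (8 * Real.pi) := by gcongr; exact hp0b u hu
      _ = E := by rw [hε, hE]; field_simp; norm_num
  have hn1 : ∀ θ, ‖pt 1 θ‖ = 1 := fun θ => norm_pt 1 θ zero_le_one
  have hmem : ∀ u t : ℂ, ‖u‖ ≤ 1 → ‖t‖ ≤ 1 → b * u + t * p u ∈ ball (0 : ℂ) 1 := by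
    intro u t hu ht
    rw [mem_ball_zero_iff]
    calc ‖b * u + t * p u‖ ≤ ‖b * u‖ + ‖t * p u‖ := norm_add_le _ _
      _ = b * ‖u‖ + ‖t‖ * ‖p u‖ := by
          rw [norm_mul, norm_mul, norm_real, Real.norm_eq_abs, abs_of_pos (by linarith)]
      _ ≤ b * 1 + 1 * E := by gcongr; exact hpb u hu
      _ < 1 := by linarith
  obtain ⟨Λ, hΛd⟩ : ∃ Λ, Λ = ∫ θ in (0 : ℝ)..2 * Real.pi,
    deriv H (b * pt 1 θ) * p (pt 1 θ) / pt 1 θ ^ N := ⟨_, rfl⟩
  have hΛ1 : ‖Λ‖ = ε * ‖∫ θ in (0 : ℝ)..2 * Real.pi,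
      deriv H (b * pt 1 θ) * p0 (pt 1 θ) / pt 1 θ ^ N‖ := by
    rw [← abs_of_pos hε0, ← Real.norm_eq_abs, ← norm_real, ← norm_mul,
      ← intervalIntegral.integral_const_mul, hΛd]
    congr 2; funext θ; simp only [hp]; ring
  obtain ⟨g, hg⟩ : ∃ g : ℝ → ℂ, g = fun ψ => ∫ θ in (0 : ℝ)..2 * Real.pi,
    H (b * pt 1 θ + pt 1 ψ * p (pt 1 θ)) / pt 1 θ ^ N := ⟨_, rfl⟩
  have hpc := hpd.continuous
  have havg : ∫ ψ in (0 : ℝ)..2 * Real.pi, g ψ / pt 1 ψ = 2 * Real.pi * Λ := by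
    have hc : Continuous fun x : ℝ × ℝ => H (b * pt 1 x.2 + pt 1 x.1 * p (pt 1 x.2)) :=
      hd.continuousOn.comp_continuous (by fun_prop) fun x => hmem _ _ (hn1 _).le (hn1 _).le
    simp only [hg, ← intervalIntegral.integral_div]
    rw [swap_int (F := fun ψ θ => H (b * pt 1 θ + pt 1 ψ * p (pt 1 θ)) / pt 1 θ ^ N / pt 1 ψ)
      ((hc.div (by fun_prop) fun x => pow_ne_zero _ (pt_ne one_pos _)).div (by fun_prop)
        fun x => pt_ne one_pos _), hΛd, ← intervalIntegral.integral_const_mul]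
    refine intervalIntegral.integral_congr fun θ _ => ?_
    have h1 : DiffContOnCl ℂ (fun t => H (b * pt 1 θ + t * p (pt 1 θ))) (ball 0 1) := by
      apply DifferentiableOn.diffContOnCl
      rw [closure_ball _ one_ne_zero]
      exact hd.comp (by fun_prop) fun t ht => hmem _ _ (hn1 _).le (by simpa using ht)
    have h2 := co_int one_pos h1 1
    have h3 : HasDerivAt (fun t => H (b * pt 1 θ + t * p (pt 1 θ)))
        (deriv H (b * pt 1 θ) * p (pt 1 θ)) 0 := by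
      have hm := hmem (pt 1 θ) 0 (hn1 _).le (by simp)
      have h4 := ((hd _ hm).differentiableAt (isOpen_ball.mem_nhds hm)).hasDerivAt.comp (0 : ℂ)
        (((hasDerivAt_id' (0 : ℂ)).mul_const (p (pt 1 θ))).const_add (b * pt 1 θ))
      simpa [Function.comp_def] using h4
    simp only [co, iteratedDeriv_one, h3.deriv, pow_one, Nat.factorial_one, Nat.cast_one,
      div_one] at h2
    simp only [div_right_comm _ (pt 1 θ ^ N)]
    rw [intervalIntegral.integral_div, h2]; ring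
  obtain ⟨ψ, hψ⟩ : ∃ ψ, ‖Λ‖ / 2 ≤ ‖g ψ‖ := by
    by_contra hc
    push Not at hc
    have h1 := intervalIntegral.norm_integral_le_of_norm_le_const (a := 0) (b := 2 * Real.pi)
      (f := fun ψ => g ψ / pt 1 ψ) (C := ‖Λ‖ / 2) fun ψ _ => by
        rw [norm_div, hn1, div_one]; exact (hc ψ).le
    rw [havg, sub_zero, abs_of_pos (by positivity), norm_mul, norm_mul, Complex.norm_two,
      norm_real, Real.norm_eq_abs, abs_of_pos hpi] at h1
    have h2 := mul_pos hpi ((norm_nonneg _).trans_lt (hc 0))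
    linarith
  obtain ⟨t, ht⟩ : ∃ t, t = pt 1 ψ := ⟨_, rfl⟩
  have htn : ‖t‖ = 1 := ht ▸ hn1 ψ
  have hτn : ∀ z : ℂ, ‖τ * z‖ = τ * ‖z‖ := fun z => by
    rw [norm_mul, norm_real, Real.norm_eq_abs, abs_of_pos (by linarith)]
  obtain ⟨w, hw⟩ : ∃ w : ℂ → ℂ, w = fun z => t * p (τ * z) := ⟨_, rfl⟩
  have hwd : Differentiable ℂ w := by simp only [hw]; fun_prop
  have hw' : ∀ z ∈ ball (0 : ℂ) 1, ‖deriv w z‖ ≤ 1 / 4 := fun z hz => by
    have hz1 : ‖z‖ < 1 := by simpa using hz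
    have h1 : HasDerivAt w (t * (deriv p (τ * z) * τ)) z := by
      have := ((hpd (τ * z)).hasDerivAt.comp z ((hasDerivAt_id' z).const_mul (τ : ℂ))).const_mul t
      simpa [Function.comp_def, hw] using this
    have hτz := hτz z hz
    have h2 := deriv_le p hpd.differentiableOn E (fun u hu => hpb u (mem_ball_zero_iff.1 hu).le)
      (τ * z) (by rw [mem_ball_zero_iff, hτn]; linarith)
    rw [h1.deriv, norm_mul, htn, one_mul, mul_comm, hτn]
    rw [hτn] at h2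
    have h3 : 2 * E / (1 - τ * ‖z‖) ≤ 1 / 4 := by
      rw [div_le_iff₀ (by linarith)]; linarith
    have h4 : τ * ‖deriv p (τ * z)‖ ≤ ‖deriv p (τ * z)‖ :=
      mul_le_of_le_one_left (norm_nonneg _) hτ1.le
    linarith
  have hbτn : ‖(b : ℂ) * τ‖ = b * τ := by
    rw [← ofReal_mul, norm_real, Real.norm_eq_abs, abs_of_pos (by linarith)]
  refine ⟨fun z => b * (τ * z) + w z, by fun_prop, fun z hz z' hz' h => ?_,
    fun z hz => ⟨?_, ?_, ?_⟩, ?_⟩
  · have h1 := (convex_ball (0 : ℂ) 1).norm_image_sub_le_of_norm_deriv_le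
      (fun z _ => hwd z) hw' hz hz'
    have h2 : w z' - w z = (b * τ) * (z - z') := by linear_combination -h
    rw [h2, norm_mul, hbτn, norm_sub_rev z' z] at h1
    have h4 := mul_le_mul_of_nonneg_right hbτ (norm_nonneg (z - z'))
    have h3 : ‖z - z'‖ ≤ 0 := by linarith
    exact sub_eq_zero.1 (norm_le_zero_iff.1 h3)
  · rw [hw]
    exact hmem _ _ (by rw [hτn]; linarith [hτz z hz]) htn.le
  · have h1 : HasDerivAt (fun z => b * (τ * z) + w z) (b * τ + deriv w z) z := by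
      exact ((((hasDerivAt_id' z).const_mul (τ : ℂ)).const_mul (b : ℂ)).add
        (hwd z).hasDerivAt).congr_deriv (by ring)
    rw [h1.deriv]
    intro h
    have h2 : deriv w z = -(b * τ) := by linear_combination h
    have h3 := hw' z hz
    rw [h2, norm_neg, hbτn] at h3
    linarith
  · have hz1 : ‖z‖ < 1 := by simpa using hz
    have h1 : ‖w z‖ ≤ E := by
      simp only [hw, norm_mul t, htn, one_mul]
      exact hpb _ (by rw [hτn]; linarith [hτz z hz])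
    calc ‖b * (τ * z) + w z - z‖ = ‖w z - ((1 - b * τ : ℝ) : ℂ) * z‖ := by
          congr 1; push_cast; ring
      _ ≤ ‖w z‖ + ‖((1 - b * τ : ℝ) : ℂ) * z‖ := norm_sub_le _ _
      _ ≤ E + (1 - b * τ) * 1 := by
          rw [norm_mul, norm_real, Real.norm_eq_abs, abs_of_nonneg hbτ1]; gcongr
      _ ≤ δ := hbτ2
  · have hτ2 : 0 < τ := by linarith
    have h1 : DiffContOnCl ℂ (H ∘ fun z => b * (τ * z) + w z) (ball 0 τ⁻¹) := by
      apply DifferentiableOn.diffContOnCl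
      rw [closure_ball _ (by positivity)]
      refine hd.comp (by fun_prop) fun z hz => ?_
      rw [hw]
      refine hmem _ _ ?_ htn.le
      have : ‖z‖ ≤ τ⁻¹ := by simpa using hz
      rw [hτn]
      calc τ * ‖z‖ ≤ τ * τ⁻¹ := by gcongr
        _ = 1 := by field_simp
    have h2 := co_int (by positivity) h1 N
    have hτC : (τ : ℂ) ≠ 0 := by exact_mod_cast hτ2.ne'
    have h3 : ∀ θ, τ * pt τ⁻¹ θ = pt 1 θ := fun θ => by simp only [pt]; push_cast; field_simp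
    have h4 : (τ : ℂ) ^ N * g ψ = 2 * Real.pi * co (H ∘ fun z => b * (τ * z) + w z) N := by
      rw [← h2, hg, ← intervalIntegral.integral_const_mul]
      refine intervalIntegral.integral_congr fun θ _ => ?_
      simp only [Function.comp, hw, h3, ht]
      rw [← h3 θ, mul_pow]
      have := pt_ne (inv_pos.2 hτ2) θ
      field_simp
    have h5 := congrArg norm h4
    rw [norm_mul, norm_mul, norm_mul, norm_pow, Complex.norm_two, norm_real, norm_real,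
      Real.norm_eq_abs, Real.norm_eq_abs, abs_of_pos hpi, abs_of_pos hτ2] at h5
    have h6 : 1 / 2 ≤ τ ^ N := by
      have := one_add_mul_le_pow (a := -(1 / (2 * (N : ℝ)))) (by linarith) N
      rw [← sub_eq_add_neg, ← hτ] at this
      refine le_trans (le_of_eq ?_) this
      field_simp; ring
    have h7 : q ^ (N + 1) ≤ b ^ N := by
      calc q ^ (N + 1) ≤ q ^ N := pow_le_pow_of_le_one hq0.le (by linarith) (by omega)
        _ ≤ b ^ N := by gcongr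
    have h8 : 6 * Real.pi * q ^ (N + 1) * (4 / δ) ≤ 24 * Real.pi * b ^ N / δ := by
      calc _ ≤ 6 * Real.pi * b ^ N * (4 / δ) := by gcongr
        _ = _ := by ring
    set J := ∫ θ in (0 : ℝ)..2 * Real.pi, ‖deriv H (pt (1 - δ) θ)‖
    have h9 : ε * (2 * Real.pi * (J - 24 * Real.pi * b ^ N / δ)) ≤ ‖Λ‖ := by
      rw [hΛ1]
      gcongr
      refine le_trans ?_ hΛ
      gcongr
    have h10 : 1 / 2 * (‖Λ‖ / 2) ≤ τ ^ N * ‖g ψ‖ := by gcongr
    rw [h5] at h10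
    have h11 : (J - 24 * Real.pi * b ^ N / δ) / (512 * Real.pi * N)
        = ε * (2 * Real.pi * (J - 24 * Real.pi * b ^ N / δ)) / (8 * Real.pi) := by
      rw [hε]; field_simp; ring
    rw [h11, div_le_iff₀ (by positivity)]
    linarith

end Pool.Agent.MP_6e64bc_an.H26
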