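import Mathlib

namespace Pool.Agent.MP_6e64bc_an.H26

inductive Tr where
  | l (v : ℕ) : Tr
  | n (a b : Tr) : Tr

noncomputable def Tr.get (T : Tr) : ℕ → ℕ :=
  Tr.rec (fun v _ => v)
    (fun _ _ ga gb i => bif Nat.beq (Nat.mod i 2) 0 then ga (Nat.div i 2) else gb (Nat.div i 2)) T

noncomputable def Tr.all (p : ℕ → Bool) (T : Tr) : Bool :=
  Tr.rec (fun v => p v) (fun _ _ ha hb => ha && hb) T

noncomputable def zm (a b : ℤ) : ℤ :=
  Int.rec (fun m => Int.rec (fun n => Int.ofNat (Nat.mul m n))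
      (fun n => Nat.rec (Int.ofNat 0) (fun k _ => Int.negSucc k) (Nat.mul m (Nat.succ n))) b)
    (fun m => Int.rec
      (fun n => Nat.rec (Int.ofNat 0) (fun k _ => Int.negSucc k) (Nat.mul (Nat.succ m) n))
      (fun n => Int.ofNat (Nat.mul (Nat.succ m) (Nat.succ n))) b) a

noncomputable def snn (m n : ℕ) : ℤ :=
  Nat.rec (Int.ofNat (Nat.sub m n)) (fun k _ => Int.negSucc k) (Nat.sub n m)

noncomputable def za (a b : ℤ) : ℤ :=
  Int.rec (fun m => Int.rec (fun n => Int.ofNat (Nat.add m n)) (fun n => snn m (Nat.succ n)) b)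
    (fun m => Int.rec (fun n => snn n (Nat.succ m))
      (fun n => Int.negSucc (Nat.succ (Nat.add m n))) b) a

noncomputable def zs (a b : ℤ) : ℤ :=
  Int.rec (fun m => Int.rec (fun n => snn m n) (fun n => Int.ofNat (Nat.add m (Nat.succ n))) b)
    (fun m => Int.rec (fun n => Int.negSucc (Nat.add m n)) (fun n => snn n m) b) a

noncomputable def zab (a : ℤ) : ℕ := Int.rec (fun m => m) (fun m => Nat.succ m) a

noncomputable def zle (a b : ℤ) : Bool :=
  Int.rec (fun m => Int.rec (fun n => Nat.ble m n) (fun _ => false) b)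
    (fun m => Int.rec (fun _ => true) (fun n => Nat.ble n m) b) a

/-- dyadic number `m / 2 ^ e` -/
structure Dy where
  m : ℤ
  e : ℕ

namespace Dy

noncomputable def up (a : Dy) (k : ℕ) : ℤ := zm a.m (Int.ofNat (Nat.pow 2 (Nat.sub k a.e)))
noncomputable def mx (a b : Dy) : ℕ := Nat.add a.e (Nat.sub b.e a.e)
noncomputable def mul (a b : Dy) : Dy := ⟨zm a.m b.m, Nat.add a.e b.e⟩
noncomputable def add (a b : Dy) : Dy := ⟨za (up a b.e) (up b a.e), mx a b⟩
noncomputable def sub (a b : Dy) : Dy := ⟨zs (up a b.e) (up b a.e), mx a b⟩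
noncomputable def le (a b : Dy) : Bool := zle (up a b.e) (up b a.e)
noncomputable def lt (a b : Dy) : Bool := !(le b a)
noncomputable def ab (a : Dy) : Dy := ⟨Int.ofNat (zab a.m), a.e⟩
noncomputable def hf (a : Dy) (k : ℕ) : Dy := ⟨a.m, Nat.add a.e k⟩
noncomputable def nat (k : ℕ) : Dy := ⟨Int.ofNat k, 0⟩
noncomputable def nb2 (a b : ℕ) : ℤ := Int.ofNat (Nat.add (Nat.add (Nat.add a a) b) (Nat.sub b a))
noncomputable def nb (a b : Dy) : Dy := ⟨nb2 (zab (up a b.e)) (zab (up b a.e)), mx a b⟩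

end Dy

open Dy

structure Cell where
  wr : Dy
  wi : Dy
  X : Dy
  A : Dy
  al : Dy
  br : Dy
  bi : Dy
  gr : Dy
  gi : Dy
  ka : Dy

noncomputable def fld (v sh w : ℕ) : Dy :=
  ⟨snn (Nat.mod (Nat.shiftRight v sh) (Nat.pow 2 (Nat.succ w))) (Nat.pow 2 w), 48⟩

noncomputable def dec (v : ℕ) : Cell :=
  ⟨fld v 0 49, fld v 50 49, fld v 100 47, fld v 148 49, fld v 198 47, fld v 246 61, fld v 308 61,
    fld v 370 75, fld v 446 75, fld v 522 75⟩

noncomputable def tp (v : ℕ) : ℕ := Nat.mod (Nat.shiftRight v 598) 8192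
noncomputable def tm (v : ℕ) : ℕ := Nat.mod (Nat.shiftRight v 611) 8192

noncomputable def cr : Dy := ⟨Int.negSucc 596152911484, 40⟩
noncomputable def ci : Dy := ⟨Int.ofNat 736258485083, 40⟩
noncomputable def lam : Dy := ⟨Int.ofNat 332904107605672, 48⟩

noncomputable def dR (w : Dy) (g : Cell) : Dy :=
  (sub (sub w (sub (mul g.wr g.wr) (mul g.wi g.wi))) cr)

noncomputable def dI (w : Dy) (g : Cell) : Dy :=
  (sub (sub w (mul (mul (nat 2) g.wr) g.wi)) ci)

noncomputable def rad (g : Cell) : Dy :=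
  (mul (add (mul g.wr g.wr) (mul g.wi g.wi)) (mul g.X (sub (nat 2) g.X)))

noncomputable def okT (xa : Dy) (g : Cell) (dr di : Dy) : Bool :=
  (le xa (rad g)) &&
  (le (add (mul dr dr) (mul di di)) (mul (sub (rad g) xa) (sub (rad g) xa)))

noncomputable def L0 (g : Cell) (dr di : Dy) : Dy :=
  (add (add (add g.al (mul (nat 2) (sub (mul g.br dr) (mul g.bi di)))) (mul (nat 2) (sub (mul g.gr (sub (mul dr dr) (mul di di))) (mul g.gi (mul (mul (nat 2) dr) di))))) (mul g.ka (add (mul dr dr) (mul di di))))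

noncomputable def L1r (g : Cell) (dr di : Dy) : Dy :=
  (add (add g.br (mul (nat 2) (sub (mul g.gr dr) (mul g.gi di)))) (mul g.ka dr))

noncomputable def L1i (g : Cell) (dr di : Dy) : Dy :=
  (sub (add g.bi (mul (nat 2) (add (mul g.gr di) (mul g.gi dr)))) (mul g.ka di))

noncomputable def fin3 (X al mu l0 n1 n2 a11 N1 N2 g4 : Dy) : Bool :=
  (le (mul (nat 2) (add (add (mul N1 X) (mul N2 (mul X X))) (mul (mul (nat 5) g4) (mul (mul X X) X)))) al) &&
  (le (add (add (mul n1 X) (mul (add n2 a11) (mul X X))) (mul (mul (mul mu (mul (mul X X) X)) (add (nat 1) (mul (nat 2) X))) (add (add (add (mul (nat 4) g4) N2) (hf N1 1)) (hf al 2)))) (sub l0 (mul mu al)))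

noncomputable def fin2 (X al mu l0 p1r p1i p2r p2i p11 v1r v1i v2r v2i v11 g4 : Dy) : Bool :=
  (fin3 X al mu l0 (nb (sub p1r (mul mu (add v1r (hf al 1)))) (sub p1i (mul mu v1i))) (nb (sub p2r (mul mu (sub (add v2r (hf v1r 1)) (hf al 3)))) (sub p2i (mul mu (add v2i (hf v1i 1))))) (ab (sub p11 (mul mu (add (add v11 v1r) (hf al 2))))) (nb v1r v1i) (add (nb v2r v2i) (ab v11)) g4)

noncomputable def fin1 (e : Cell) (l0 l1r l1i l2r l2i l11 w2r w2i nw bwr bwi : Dy) : Bool :=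
  (fin2 e.X e.al (mul (mul (nat 2) lam) e.A) l0 (sub (mul l1r e.wr) (mul l1i e.wi)) (add (mul l1r e.wi) (mul l1i e.wr)) (sub (mul l2r w2r) (mul l2i w2i)) (add (mul l2r w2i) (mul l2i w2r)) (mul l11 nw) (mul (nat 2) bwr) (mul (nat 2) bwi) (add bwr (mul (nat 4) (sub (mul e.gr (sub (mul w2r w2r) (mul w2i w2i))) (mul e.gi (mul (mul (nat 2) w2r) w2i))))) (add bwi (mul (nat 4) (add (mul e.gr (mul (mul (nat 2) w2r) w2i)) (mul e.gi (sub (mul w2r w2r) (mul w2i w2i)))))) (mul (mul (nat 4) e.ka) (mul nw nw)) (mul (add (nb e.gr e.gi) (ab e.ka)) (mul nw nw)))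

noncomputable def chk3 (e p m : Cell) (pr pi mr mi w2r w2i : Dy) : Bool :=
  (okT (mul e.X e.A) p pr pi) &&
  (okT (mul e.X e.A) m mr mi) &&
  (le (add (mul e.wr e.wr) (mul e.wi e.wi)) (mul e.A e.A)) &&
  (lt (nat 0) (add (mul e.wr e.wr) (mul e.wi e.wi))) &&
  (lt (nat 0) e.X) &&
  (le (mul (nat 3) e.X) (nat 1)) &&
  (lt (nat 0) e.A) &&
  (le (mul (nat 2) e.al) (nat 1)) &&
  (fin1 e (add (L0 p pr pi) (L0 m mr mi)) (sub (L1r p pr pi) (L1r m mr mi)) (sub (L1i p pr pi) (L1i m mr mi)) (add p.gr m.gr) (add p.gi m.gi) (add p.ka m.ka) w2r w2i (add (mul e.wr e.wr) (mul e.wi e.wi)) (sub (mul e.br w2r) (mul e.bi w2i)) (add (mul e.br w2i) (mul e.bi w2r)))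

noncomputable def chk (e p m : Cell) : Bool :=
  (chk3 e p m (dR e.wr p) (dI e.wi p) (dR (sub (nat 0) e.wr) m) (dI (sub (nat 0) e.wi) m) (sub (mul e.wr e.wr) (mul e.wi e.wi)) (mul (mul (nat 2) e.wr) e.wi))

noncomputable def chkT (T : Tr) (v : ℕ) : Bool :=
  chk (dec v) (dec (T.get (tp v))) (dec (T.get (tm v)))

end Pool.Agent.MP_6e64bc_an.H26
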