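import Pool.Agent.MP_6e64bc_an.H26.Bott

namespace Pool.Agent.MP_6e64bc_an.H26

open Complex Metric Set

theorem DD_contOn {L : ℂ → ℂ} (hL : DifferentiableOn ℂ L (ball 0 1)) :
    ContinuousOn (DD L) (ball 0 1) :=
  (hL.cexp.mul ((differentiableOn_const 1).sub
    (differentiableOn_id.mul (hL.deriv isOpen_ball)))).continuousOn

theorem cont_pt_comp {f : ℂ → ℂ} (hf : ContinuousOn f (ball 0 1)) {r : ℝ} (hr : 0 ≤ r)
    (h1 : r < 1) : Continuous fun θ => f (pt r θ) :=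
  hf.comp_continuous (continuous_pt r) fun θ => pt_mem θ hr h1

theorem sum_claim (c : ℂ) (lam : ℝ) (hlam : 0 < lam) (Q : ℂ → ℝ → Prop)
    (hQ1 : ∀ y t, Q y t → t ≤ 1)
    (hQ2 : ∀ w t, Q (w ^ 2 + c) t → ∃ t1 t2, Q w t1 ∧ Q (-w) t2 ∧ 2 * lam * ‖w‖ * t ≤ t1 + t2)
    (L : ℕ → ℂ → ℂ) (hd : ∀ n, DifferentiableOn ℂ (L n) (ball 0 1))
    (hev : ∀ n z, L (n + 1) (-z) = L (n + 1) z)
    (he : ∀ n, ∀ z ∈ ball (0 : ℂ) 1, exp (L (n + 1) z) ^ 2 = exp (L n (z ^ 2)) - c * z ^ 2)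
    (N : ℕ) (r : ℝ) (hr : 0 < r) (hr1 : r < 1) :
    ∀ m n, n + m = N → ∀ θ t, Q (exp (L n (pt (r ^ 2 ^ m) θ)) / pt (r ^ 2 ^ m) θ) t →
      (2 * lam) ^ m * t * ‖DD (L n) (pt (r ^ 2 ^ m) θ)‖
        ≤ BB (fun θ => ‖DD (L N) (pt r θ)‖) m θ := by
  intro m
  induction m with
  | zero =>
    intro n hn θ t hq
    obtain rfl : n = N := by omega
    have := hQ1 _ _ hq
    simp only [pow_zero, pow_one, one_mul, BB]
    nlinarith [norm_nonneg (DD (L n) (pt r θ))]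
  | succ m ih =>
    intro n hn θ t hq
    rcases le_total t 0 with ht | ht
    · refine le_trans ?_ (BB_nonneg _ (fun _ => norm_nonneg _) _ _)
      exact mul_nonpos_of_nonpos_of_nonneg (mul_nonpos_of_nonneg_of_nonpos (by positivity) ht)
        (norm_nonneg _)
    set s := r ^ 2 ^ m with hs
    have hs0 : 0 < s := by positivity
    have hs1 : s < 1 := pow_lt_one₀ hr.le hr1 (by positivity)
    set ζ := pt s (θ / 2) with hζ
    have hζm : ζ ∈ ball (0 : ℂ) 1 := pt_mem _ hs0.le hs1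
    have hζn : ‖ζ‖ = s := norm_pt _ _ hs0.le
    have hζ0 : ζ ≠ 0 := by rw [← norm_pos_iff, hζn]; exact hs0
    have hz : pt (r ^ 2 ^ (m + 1)) θ = ζ ^ 2 := by
      rw [hζ, pt_pow, hs, ← pow_mul, pow_succ]; congr 1; push_cast; ring
    rw [hz] at hq ⊢
    set w := exp (L (n + 1) ζ) / ζ with hw
    have hw2 : exp (L n (ζ ^ 2)) / ζ ^ 2 = w ^ 2 + c := by
      rw [hw, div_pow, he n ζ hζm]; field_simp; ring
    rw [hw2] at hq
    obtain ⟨t1, t2, q1, q2, hle⟩ := hQ2 _ _ hq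
    have i1 := ih (n + 1) (by omega) (θ / 2) t1 q1
    have i2 := ih (n + 1) (by omega) (θ / 2 + Real.pi) t2 (by
      rw [pt_add_pi, ← hζ, hev, div_neg]; exact q2)
    rw [pt_add_pi, ← hζ] at i2
    rw [← hζ] at i1
    have r1 := DD_rec (hd n) (hd (n + 1)) (he n) ζ hζm
    have r2 := DD_rec (hd n) (hd (n + 1)) (he n) (-ζ) (by simpa using hζm)
    rw [hev, neg_sq, ← r1] at r2
    have r3 : DD (L (n + 1)) (-ζ) = DD (L (n + 1)) ζ := mul_right_cancel₀ (exp_ne_zero _) r2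
    rw [r3] at i2
    have hE : ‖exp (L (n + 1) ζ)‖ ≤ ‖w‖ := by
      rw [hw, norm_div, hζn, le_div_iff₀ hs0]
      nlinarith [norm_nonneg (exp (L (n + 1) ζ))]
    rw [← r1, norm_mul, BB]
    set d := ‖DD (L (n + 1)) ζ‖
    have hd0 : 0 ≤ d := norm_nonneg _
    calc (2 * lam) ^ (m + 1) * t * (d * ‖exp (L (n + 1) ζ)‖)
        ≤ (2 * lam) ^ (m + 1) * t * (d * ‖w‖) := by gcongr
      _ = (2 * lam) ^ m * d * (2 * lam * ‖w‖ * t) := by ring
      _ ≤ (2 * lam) ^ m * d * (t1 + t2) := by gcongr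
      _ ≤ _ := by linarith

theorem chain_props (c : ℂ) (R ρ lam : ℝ) (hR : 0 < R) (hR2 : R ≤ 2) (hc : ‖c‖ ≤ 2) (hρ : 0 < ρ)
    (hlam : 0 < lam) (ht : ∀ z : ℂ, ‖z‖ ≤ ρ → ∀ n, ‖(fun w => w ^ 2 + c)^[n] z‖ ≤ R)
    (Q : ℂ → ℝ → Prop) (hQ1 : ∀ y t, Q y t → t ≤ 1)
    (hQ2 : ∀ w t, Q (w ^ 2 + c) t → ∃ t1 t2, Q w t1 ∧ Q (-w) t2 ∧ 2 * lam * ‖w‖ * t ≤ t1 + t2)
    (y0 : ℂ) (η t0 : ℝ) (hy0 : R < ‖y0‖) (hy1 : y0.im < 0) (hη : 0 < η) (ht0 : 0 < t0)
    (hQ3 : ∀ y, ‖y - y0‖ ≤ η → ∃ t, t0 ≤ t ∧ Q y t) :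
    ∃ (L : ℕ → ℂ → ℂ) (κ τ : ℝ), 0 < κ ∧ 0 < τ ∧ τ < 1 ∧ ∀ n,
      DifferentiableOn ℂ (L n) (ball 0 1) ∧ (L n 0).im = 0 ∧
      (∀ z ∈ ball (0 : ℂ) 1, ρ / 2 ≤ ‖exp (L n z)‖ ∧ ‖exp (L n z)‖ ≤ 2 ∧ DD (L n) z ≠ 0) ∧
      (∀ z ∈ ball (0 : ℂ) 1, ∀ w ∈ ball (0 : ℂ) 1, z ≠ 0 → w ≠ 0 →
        exp (L n z) / z = exp (L n w) / w → z = w) ∧
      ∀ r : ℝ, 0 < r → r ^ 2 ^ n = τ →
        κ * lam ^ n ≤ ∫ θ in (0 : ℝ)..2 * Real.pi, ‖DD (L n) (pt r θ)‖ := by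
  obtain ⟨L, hL0, hL⟩ := exists_chain c R hR (ht 0 (by simpa using hρ.le))
  have hE0 : ∀ z, exp (L 0 z) = R := fun z => by simp [hL0, ← ofReal_exp, Real.exp_log hR]
  have hD0 : ∀ z, DD (L 0) z = R := fun z => by rw [DD, hE0]; simp [hL0]
  have hny : 0 < ‖y0‖ := hR.trans hy0
  set τ := R / ‖y0‖ with hτ
  have hτ0 : 0 < τ := by positivity
  have hτ1 : τ < 1 := (div_lt_one hny).2 hy0
  set θ0 := -arg y0 with hθ0
  have hθ1 : 0 ≤ θ0 := by have := arg_neg_iff.2 hy1; linarith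
  have hθ2 : θ0 ≤ Real.pi := by have := neg_pi_lt_arg y0; linarith
  set ε := min (η / ‖y0‖) Real.pi with hε
  have hε0 : 0 < ε := lt_min (by positivity) Real.pi_pos
  have harc : ∀ θ ∈ Icc θ0 (θ0 + ε), ‖(R : ℂ) / pt τ θ - y0‖ ≤ η := by
    intro θ hθ
    have e1 : (R : ℂ) / pt τ θ - y0 = y0 * (exp (I * ((θ0 - θ : ℝ) : ℂ)) - 1) := by
      have h1 : y0 = ‖y0‖ * exp (arg y0 * I) := (norm_mul_exp_arg_mul_I y0).symm
      have h2 : exp (arg y0 * I) * exp (I * ((θ0 - θ : ℝ) : ℂ)) * exp (θ * I) = 1 := by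
        rw [← exp_add, ← exp_add, hθ0]; push_cast
        rw [show (arg y0 : ℂ) * I + I * (-(arg y0 : ℂ) - θ) + θ * I = 0 by ring, exp_zero]
      have h3 : (‖y0‖ : ℂ) ≠ 0 := by exact_mod_cast hny.ne'
      have h4 : (R : ℂ) ≠ 0 := by exact_mod_cast hR.ne'
      have h5 := exp_ne_zero (θ * I)
      rw [mul_sub, mul_one, sub_left_inj, pt, hτ]
      push_cast at h2 ⊢
      field_simp
      conv_rhs => rw [h1]
      simp only [mul_comm I] at *
      linear_combination (-(‖y0‖ : ℂ)) * h2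
    rw [e1, norm_mul]
    have h6 := Real.norm_exp_I_mul_ofReal_sub_one_le (x := θ0 - θ)
    have h7 : ‖θ0 - θ‖ ≤ η / ‖y0‖ := by
      rw [Real.norm_eq_abs, abs_le]
      have := min_le_left (η / ‖y0‖) Real.pi
      constructor <;> linarith [hθ.1, hθ.2]
    calc _ ≤ ‖y0‖ * (η / ‖y0‖) := by gcongr; exact h6.trans h7
      _ = η := by field_simp
  have hup : ∀ n, ∀ z ∈ ball (0 : ℂ) 1, ‖exp (L n z)‖ ≤ 2 := by
    intro n
    induction n with
    | zero => intro z _; rw [hE0]; simpa [abs_of_pos hR] using hR2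
    | succ n ih =>
      intro z hz
      refine le_of_sq_le_sq ?_ (by norm_num)
      rw [← norm_pow, (hL n).2.2 z hz]
      have h1 := ih _ (sq_mem hz 2 two_ne_zero)
      have h2 : ‖z ^ 2‖ < 1 := by simpa using sq_mem hz 2 two_ne_zero
      have h3 := norm_sub_le (exp (L n (z ^ 2))) (c * z ^ 2)
      rw [norm_mul] at h3
      nlinarith [norm_nonneg c, norm_nonneg (z ^ 2)]
  have hDne : ∀ n, ∀ z ∈ ball (0 : ℂ) 1, DD (L n) z ≠ 0 := by
    intro n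
    induction n with
    | zero => intro z _; rw [hD0]; exact_mod_cast hR.ne'
    | succ n ih =>
      intro z hz h0
      have := DD_rec (hL n).1.1 (hL (n + 1)).1.1 (hL n).2.2 z hz
      rw [h0, zero_mul] at this
      exact ih _ (sq_mem hz 2 two_ne_zero) this.symm
  have hinj : ∀ n, ∀ z ∈ ball (0 : ℂ) 1, ∀ w ∈ ball (0 : ℂ) 1, z ≠ 0 → w ≠ 0 →
      exp (L n z) / z = exp (L n w) / w → z = w := by
    intro n
    induction n with
    | zero =>
      intro z _ w _ hz hw h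
      rw [hE0, hE0] at h
      have h4 : (R : ℂ) ≠ 0 := by exact_mod_cast hR.ne'
      field_simp at h
      exact h.symm
    | succ n ih =>
      intro z hz w hw hz0 hw0 h
      have h1 : ∀ z ∈ ball (0 : ℂ) 1, z ≠ 0 →
          exp (L n (z ^ 2)) / z ^ 2 = (exp (L (n + 1) z) / z) ^ 2 + c := fun z hz hz0 => by
        rw [div_pow, (hL n).2.2 z hz]; field_simp; ring
      have h2 := ih _ (sq_mem hz 2 two_ne_zero) _ (sq_mem hw 2 two_ne_zero) (pow_ne_zero _ hz0)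
        (pow_ne_zero _ hw0) (by rw [h1 z hz hz0, h1 w hw hw0, h])
      rcases sq_eq_sq_iff_eq_or_eq_neg.1 h2 with h3 | h3
      · exact h3
      · exfalso
        rw [h3, (hL n).2.1, div_neg, neg_eq_iff_add_eq_zero, ← two_mul] at h
        simp [hw0] at h
  have hlow : ∀ n, ∀ z ∈ ball (0 : ℂ) 1, ρ / 2 ≤ ‖exp (L n z)‖ := by
    intro n z hz
    have hz' : ‖z‖ < 1 := by simpa using hz
    set s := max ‖z‖ (1 / 2) with hs
    have hs1 : s < 1 := max_lt hz' (by norm_num)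
    have hs0 : 1 / 2 ≤ s := le_max_right _ _
    have hsub : closedBall (0 : ℂ) s ⊆ ball 0 1 := closedBall_subset_ball hs1
    have hd : DiffContOnCl ℂ (fun z => (exp (L n z))⁻¹) (ball 0 s) := by
      apply DifferentiableOn.diffContOnCl
      rw [closure_ball _ (by linarith)]
      exact (((hL n).1.1.mono hsub).cexp).inv fun _ _ => exp_ne_zero _
    have := norm_le_of_forall_mem_frontier_norm_le isBounded_ball hd (C := (ρ / 2)⁻¹) (z := z)
      (fun w hw => by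
        rw [frontier_ball _ (by linarith)] at hw
        have hwn : ‖w‖ = s := by simpa using hw
        have hw0 : w ≠ 0 := by rw [← norm_pos_iff]; linarith
        have h1 := (hL n).1.big hR w (hsub (sphere_subset_closedBall hw)) hw0
        have h2 : ρ < ‖exp (L n w) / w‖ := by
          by_contra h3
          linarith [ht _ (not_lt.1 h3) n]
        rw [norm_div, hwn, lt_div_iff₀ (by linarith)] at h2
        rw [norm_inv]
        apply inv_anti₀ (by positivity)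
        nlinarith)
      (by rw [closure_ball _ (by linarith)]; simp [hs])
    rw [norm_inv] at this
    exact (inv_le_inv₀ (norm_pos_iff.2 (exp_ne_zero _)) (by positivity)).1 this
  refine ⟨L, ε * t0 * R, τ, by positivity, hτ0, hτ1, fun n => ⟨(hL n).1.1, (hL n).1.2.1,
    fun z hz => ⟨hlow n z hz, hup n z hz, hDne n z hz⟩, hinj n, fun r hr hrτ => ?_⟩⟩
  have hr1 : r < 1 := by
    by_contra h
    have := one_le_pow₀ (n := 2 ^ n) (not_lt.1 h)
    linarith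
  have hg : Continuous fun θ => ‖DD (L n) (pt r θ)‖ :=
    (cont_pt_comp (DD_contOn (hL n).1.1) hr.le hr1).norm
  have hB := BB_cont _ hg n
  have h1 := BB_int _ hg n
  have h2 : ∫ θ in θ0..θ0 + ε, BB (fun θ => ‖DD (L n) (pt r θ)‖) n θ
      ≤ ∫ θ in (0 : ℝ)..2 * Real.pi, BB (fun θ => ‖DD (L n) (pt r θ)‖) n θ :=
    intervalIntegral.integral_mono_interval hθ1 (by linarith)
      (by linarith [min_le_right (η / ‖y0‖) Real.pi])
      (Filter.Eventually.of_forall fun θ => BB_nonneg _ (fun _ => norm_nonneg _) _ _)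
      (hB.intervalIntegrable _ _)
  have h3 : ∫ _ in θ0..θ0 + ε, (2 * lam) ^ n * t0 * R
      ≤ ∫ θ in θ0..θ0 + ε, BB (fun θ => ‖DD (L n) (pt r θ)‖) n θ := by
    refine intervalIntegral.integral_mono_on (by linarith) (by simp) (hB.intervalIntegrable _ _)
      fun θ hθ => ?_
    obtain ⟨t, h4, h5⟩ := hQ3 _ (harc θ hθ)
    have := sum_claim c lam hlam Q hQ1 hQ2 L (fun n => (hL n).1.1) (fun n => (hL n).2.1)
      (fun n => (hL n).2.2) n r hr hr1 n 0 (by simp) θ t (by rw [hE0, hrτ]; exact h5)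
    rw [hD0, norm_real, Real.norm_eq_abs, abs_of_pos hR] at this
    refine le_trans ?_ this
    gcongr
  rw [intervalIntegral.integral_const, smul_eq_mul] at h3
  have h4 : (2 : ℝ) ^ n * (ε * t0 * R * lam ^ n)
      ≤ 2 ^ n * ∫ θ in (0 : ℝ)..2 * Real.pi, ‖DD (L n) (pt r θ)‖ := by
    rw [← h1]
    refine le_trans (le_of_eq ?_) (h3.trans h2)
    rw [mul_pow]; ring
  exact le_of_mul_le_mul_left h4 (by positivity)

end Pool.Agent.MP_6e64bc_an.H26
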