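import Pool.Agent.MP_6e64bc_an.H26.DataAll

namespace Pool.Agent.MP_6e64bc_an.H26

theorem ok0 : Tr.all (chkT tree) c0 = true := by decide +kernel

theorem ok1 : Tr.all (chkT tree) c1 = true := by decide +kernel

theorem ok2 : Tr.all (chkT tree) c2 = true := by decide +kernel

theorem ok3 : Tr.all (chkT tree) c3 = true := by decide +kernel

end Pool.Agent.MP_6e64bc_an.H26
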