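import Pool.Agent.MP_6e64bc_an.H26.DataAll

namespace Pool.Agent.MP_6e64bc_an.H26

theorem ok8 : Tr.all (chkT tree) c8 = true := by decide +kernel

theorem ok9 : Tr.all (chkT tree) c9 = true := by decide +kernel

theorem ok10 : Tr.all (chkT tree) c10 = true := by decide +kernel

theorem ok11 : Tr.all (chkT tree) c11 = true := by decide +kernel

end Pool.Agent.MP_6e64bc_an.H26
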