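import Pool.Agent.MP_6e64bc_an.H26.DataAll

namespace Pool.Agent.MP_6e64bc_an.H26

theorem ok28 : Tr.all (chkT tree) c28 = true := by decide +kernel

theorem ok29 : Tr.all (chkT tree) c29 = true := by decide +kernel

theorem ok30 : Tr.all (chkT tree) c30 = true := by decide +kernel

theorem ok31 : Tr.all (chkT tree) c31 = true := by decide +kernel

end Pool.Agent.MP_6e64bc_an.H26
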