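import Pool.Agent.MP_6e64bc_an.H26.Chk0
import Pool.Agent.MP_6e64bc_an.H26.Chk1
import Pool.Agent.MP_6e64bc_an.H26.Chk2
import Pool.Agent.MP_6e64bc_an.H26.Chk3
import Pool.Agent.MP_6e64bc_an.H26.Chk4
import Pool.Agent.MP_6e64bc_an.H26.Chk5
import Pool.Agent.MP_6e64bc_an.H26.Chk6
import Pool.Agent.MP_6e64bc_an.H26.Chk7

namespace Pool.Agent.MP_6e64bc_an.H26

theorem all_n (p : ℕ → Bool) {a b : Tr} (ha : Tr.all p a = true) (hb : Tr.all p b = true) :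
    Tr.all p (Tr.n a b) = true := by
  show (Tr.all p a && Tr.all p b) = true
  rw [ha, hb]; rfl

theorem tree_eq : tree =
    (Tr.n (Tr.n (Tr.n (Tr.n (Tr.n c0 c16) (Tr.n c8 c24)) (Tr.n (Tr.n c4 c20) (Tr.n c12 c28))) (Tr.n (Tr.n (Tr.n c2 c18) (Tr.n c10 c26)) (Tr.n (Tr.n c6 c22) (Tr.n c14 c30)))) (Tr.n (Tr.n (Tr.n (Tr.n c1 c17) (Tr.n c9 c25)) (Tr.n (Tr.n c5 c21) (Tr.n c13 c29))) (Tr.n (Tr.n (Tr.n c3 c19) (Tr.n c11 c27)) (Tr.n (Tr.n c7 c23) (Tr.n c15 c31))))) := by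
  delta tree; rfl

theorem okAll : Tr.all (chkT tree) tree = true :=
  (congrArg (fun T => Tr.all (chkT tree) T) tree_eq).trans
    (all_n _ (all_n _ (all_n _ (all_n _ (all_n _ ok0 ok16) (all_n _ ok8 ok24)) (all_n _ (all_n _ ok4 ok20) (all_n _ ok12 ok28))) (all_n _ (all_n _ (all_n _ ok2 ok18) (all_n _ ok10 ok26)) (all_n _ (all_n _ ok6 ok22) (all_n _ ok14 ok30)))) (all_n _ (all_n _ (all_n _ (all_n _ ok1 ok17) (all_n _ ok9 ok25)) (all_n _ (all_n _ ok5 ok21) (all_n _ ok13 ok29))) (all_n _ (all_n _ (all_n _ ok3 ok19) (all_n _ ok11 ok27)) (all_n _ (all_n _ ok7 ok23) (all_n _ ok15 ok31)))))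

end Pool.Agent.MP_6e64bc_an.H26
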