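import Mathlib

namespace Pool.Agent.MP_6e64bc_an.H26

open Complex

theorem two_re_le (a x : ℂ) (N t : ℝ) (h : 2 * ‖a‖ ≤ N) (hx : ‖x‖ ≤ t) :
    |2 * (a * x).re| ≤ N * t := by
  have h1 : |(a * x).re| ≤ ‖a‖ * ‖x‖ := by rw [← norm_mul]; exact abs_re_le_norm _
  have h2 : ‖a‖ * ‖x‖ ≤ ‖a‖ * t := mul_le_mul_of_nonneg_left hx (norm_nonneg _)
  have ht : 0 ≤ t := (norm_nonneg _).trans hx
  rw [abs_mul, abs_two]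
  nlinarith

theorem norm_one_add_le (x : ℂ) (ξ : ℝ) (hx : ‖x‖ ≤ ξ) (h3 : 3 * ξ ≤ 1) :
    ‖1 + x‖ ≤ 1 + x.re + x.im ^ 2 / 2 + ξ ^ 3 / 4 := by
  have h0 : 0 ≤ ξ := (norm_nonneg _).trans hx
  have hn : x.re ^ 2 + x.im ^ 2 ≤ ξ ^ 2 := by
    have : ‖x‖ ^ 2 = x.re ^ 2 + x.im ^ 2 := by rw [Complex.sq_norm, normSq_apply]; ring
    rw [← this]; gcongr
  have ha : |x.re| ≤ ξ := (abs_re_le_norm x).trans hx
  obtain ⟨ha1, ha2⟩ := abs_le.1 ha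
  set a := x.re
  set b := x.im
  have key : 0 ≤ a * b ^ 2 + (1 + a) * ξ ^ 3 / 2 := by
    rcases le_total 0 a with h | h
    · positivity
    · have hb : b ^ 2 ≤ ξ ^ 2 - a ^ 2 := by linarith
      have h1 : a * (ξ ^ 2 - a ^ 2) ≤ a * b ^ 2 := mul_le_mul_of_nonpos_left hb h
      have h2 : 0 ≤ (-a - 5 / 8 * ξ) ^ 2 * (-a + 5 / 4 * ξ) := by
        apply mul_nonneg (sq_nonneg _); linarith
      have h4 : 0 ≤ -a * ξ ^ 2 * (1 - 3 * ξ) := by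
        apply mul_nonneg (mul_nonneg (by linarith) (sq_nonneg _)); linarith
      have h5 : 0 ≤ -a * ξ ^ 2 := mul_nonneg (by linarith) (sq_nonneg _)
      have h6 : 0 ≤ ξ ^ 3 := by positivity
      nlinarith
  refine le_of_sq_le_sq ?_ (by nlinarith [sq_nonneg b, pow_nonneg h0 3])
  have : ‖1 + x‖ ^ 2 = (1 + a) ^ 2 + b ^ 2 := by
    rw [Complex.sq_norm, normSq_apply]; simp [a, b]; ring
  rw [this]
  nlinarith [sq_nonneg (b ^ 2 / 2 + ξ ^ 3 / 4)]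

theorem xi_facts (ξ : ℝ) (h0 : 0 ≤ ξ) (h3 : 3 * ξ ≤ 1) :
    (4 + ξ) * (1 + ξ + ξ ^ 2 / 2 + ξ ^ 3 / 4) ≤ 4 * (1 + 2 * ξ) ∧
    ξ + ξ ^ 2 / 2 + ξ ^ 3 / 4 ≤ ξ * (1 + 2 * ξ) ∧
    ξ ^ 2 / 2 + ξ ^ 3 / 4 ≤ ξ ^ 2 * (1 + 2 * ξ) / 2 := by
  have hξ2 : ξ ^ 2 ≤ ξ / 3 := by nlinarith
  have hξ3 : ξ ^ 3 ≤ ξ ^ 2 / 3 := by nlinarith [sq_nonneg ξ]
  have hξ4 : ξ ^ 4 ≤ ξ ^ 3 / 3 := by nlinarith [pow_nonneg h0 3]
  have := pow_nonneg h0 3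
  have := pow_nonneg h0 2
  refine ⟨by nlinarith, by nlinarith, by nlinarith⟩

theorem core (ξ V0 V11 G4 μ L0 P11 n1 n2 a11 N1 N2 u3 u : ℝ) (x V1 V2 P1 P2 : ℂ)
    (hx : ‖x‖ ≤ ξ) (h3 : 3 * ξ ≤ 1) (hμ : 0 ≤ μ) (hG : 0 ≤ G4)
    (hu3 : |u3| ≤ G4 * (ξ ^ 3 * (4 + ξ)))
    (hu : u = V0 + 2 * (V1 * x).re + 2 * (V2 * x ^ 2).re + V11 * normSq x + u3)
    (hN1 : 2 * ‖V1‖ ≤ N1) (hN2 : 2 * ‖V2‖ + |V11| ≤ N2)
    (hpos : 2 * (N1 * ξ + N2 * (ξ * ξ) + 5 * G4 * (ξ * ξ * ξ)) ≤ V0)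
    (hn1 : 2 * ‖P1 - μ * (V1 + V0 / 2)‖ ≤ n1)
    (hn2 : 2 * ‖P2 - μ * (V2 + V1 / 2 - V0 / 8)‖ ≤ n2)
    (ha11 : |P11 - μ * (V11 + V1.re + V0 / 4)| ≤ a11)
    (hmain : n1 * ξ + (n2 + a11) * (ξ * ξ)
      + μ * (ξ * ξ * ξ) * (1 + 2 * ξ) * (4 * G4 + N2 + N1 / 2 + V0 / 4) ≤ L0 - μ * V0) :
    V0 / 2 ≤ u ∧ u ≤ 3 / 2 * V0 ∧
      μ * ‖1 + x‖ * u ≤ L0 + 2 * (P1 * x).re + 2 * (P2 * x ^ 2).re + P11 * normSq x := by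
  have h0 : 0 ≤ ξ := (norm_nonneg _).trans hx
  obtain ⟨f1, f2, f3⟩ := xi_facts ξ h0 h3
  have hx2 : ‖x ^ 2‖ ≤ ξ ^ 2 := by rw [norm_pow]; gcongr
  have hns : normSq x ≤ ξ ^ 2 := by rw [← Complex.sq_norm]; gcongr
  have hns0 : 0 ≤ normSq x := normSq_nonneg x
  have hN10 : 0 ≤ N1 := le_trans (by positivity) hN1
  have hN20 : 0 ≤ N2 := le_trans (by positivity) hN2
  have hV0 : 0 ≤ V0 := le_trans (by positivity) hpos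
  have habs : ∀ c : ℝ, |c * normSq x| ≤ |c| * ξ ^ 2 := fun c => by
    rw [abs_mul, abs_of_nonneg hns0]; gcongr
  set u1 := 2 * (V1 * x).re with hu1
  set u2 := 2 * (V2 * x ^ 2).re + V11 * normSq x with hu2
  have b1 : |u1| ≤ N1 * ξ := two_re_le _ _ _ _ hN1 hx
  have b2 : |u2| ≤ N2 * ξ ^ 2 := by
    have := two_re_le V2 (x ^ 2) (2 * ‖V2‖) (ξ ^ 2) le_rfl hx2
    have h2 := habs V11
    calc |u2| ≤ _ := abs_add_le _ _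
      _ ≤ (2 * ‖V2‖ + |V11|) * ξ ^ 2 := by linarith
      _ ≤ _ := by gcongr
  have b3 : |u3| ≤ 5 * G4 * ξ ^ 3 := by
    refine hu3.trans ?_
    calc G4 * (ξ ^ 3 * (4 + ξ)) ≤ G4 * (ξ ^ 3 * 5) := by gcongr; linarith
      _ = _ := by ring
  have hu' : u = V0 + u1 + u2 + u3 := by rw [hu, hu2]; ring
  have e1 := abs_le.1 b1
  have e2 := abs_le.1 b2
  have e3 := abs_le.1 b3
  have hpos' : 2 * (N1 * ξ + N2 * ξ ^ 2 + 5 * G4 * ξ ^ 3) ≤ V0 := by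
    refine le_of_eq_of_le ?_ hpos; ring
  have hlo : V0 / 2 ≤ u := by linarith
  refine ⟨hlo, by linarith, ?_⟩
  have hu0 : 0 ≤ u := by linarith
  set m1 := x.re with hm1
  set m2 := x.im ^ 2 / 2 with hm2
  set m3 := ξ ^ 3 / 4 with hm3
  have hm : ‖1 + x‖ ≤ 1 + m1 + m2 + m3 := norm_one_add_le x ξ hx h3
  have c1 : |m1| ≤ ξ := (abs_re_le_norm x).trans hx
  have c2 : m2 ≤ ξ ^ 2 / 2 := by
    have : |x.im| ≤ ξ := (abs_im_le_norm x).trans hx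
    have h2 : x.im ^ 2 ≤ ξ ^ 2 := by rw [← sq_abs]; gcongr
    linarith
  have c20 : 0 ≤ m2 := by positivity
  have c30 : 0 ≤ m3 := by positivity
  have step1 : μ * ‖1 + x‖ * u ≤ μ * (1 + m1 + m2 + m3) * u := by gcongr
  refine step1.trans ?_
  have d1 := abs_le.1 (two_re_le _ x _ _ hn1 hx)
  have d2 := abs_le.1 (two_re_le _ (x ^ 2) _ _ hn2 hx2)
  have d3 := abs_le.1 ((habs (P11 - μ * (V11 + V1.re + V0 / 4))).trans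
    (mul_le_mul_of_nonneg_right ha11 (sq_nonneg ξ)))
  have ident : L0 + 2 * (P1 * x).re + 2 * (P2 * x ^ 2).re + P11 * normSq x
      - μ * (V0 + u1 + V0 * m1 + u2 + u1 * m1 + V0 * m2)
      = (L0 - μ * V0) + 2 * ((P1 - μ * (V1 + V0 / 2)) * x).re
        + 2 * ((P2 - μ * (V2 + V1 / 2 - V0 / 8)) * x ^ 2).re
        + (P11 - μ * (V11 + V1.re + V0 / 4)) * normSq x := by
    simp only [hu1, hu2, hm1, hm2, pow_two, mul_re, mul_im, sub_re, sub_im, add_re, add_im,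
      ofReal_re, ofReal_im, normSq_apply, div_ofNat_re, div_ofNat_im]
    ring
  have c1' := abs_le.1 c1
  have r3 : u3 * (1 + m1 + m2 + m3) ≤ ξ ^ 3 * (1 + 2 * ξ) * (4 * G4) := by
    have hmpos : 0 ≤ 1 + m1 + m2 + m3 := by linarith
    have hmle : 1 + m1 + m2 + m3 ≤ 1 + ξ + ξ ^ 2 / 2 + ξ ^ 3 / 4 := by linarith
    calc u3 * (1 + m1 + m2 + m3) ≤ G4 * (ξ ^ 3 * (4 + ξ)) * (1 + ξ + ξ ^ 2 / 2 + ξ ^ 3 / 4) := by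
          apply mul_le_mul ((le_abs_self _).trans hu3) hmle hmpos (by positivity)
      _ = G4 * ξ ^ 3 * ((4 + ξ) * (1 + ξ + ξ ^ 2 / 2 + ξ ^ 3 / 4)) := by ring
      _ ≤ G4 * ξ ^ 3 * (4 * (1 + 2 * ξ)) := by gcongr
      _ = _ := by ring
  have r2 : u2 * (m1 + m2 + m3) ≤ ξ ^ 3 * (1 + 2 * ξ) * N2 := by
    have : |m1 + m2 + m3| ≤ ξ * (1 + 2 * ξ) := by
      have : 0 ≤ ξ ^ 2 := by positivity
      rw [abs_le]; constructor <;> linarith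
    calc u2 * (m1 + m2 + m3) ≤ |u2| * |m1 + m2 + m3| := by rw [← abs_mul]; exact le_abs_self _
      _ ≤ (N2 * ξ ^ 2) * (ξ * (1 + 2 * ξ)) := by gcongr
      _ = _ := by ring
  have r1 : u1 * (m2 + m3) ≤ ξ ^ 3 * (1 + 2 * ξ) * (N1 / 2) := by
    have : m2 + m3 ≤ ξ ^ 2 * (1 + 2 * ξ) / 2 := by linarith
    calc u1 * (m2 + m3) ≤ (N1 * ξ) * (ξ ^ 2 * (1 + 2 * ξ) / 2) :=
          mul_le_mul e1.2 this (by positivity) (by positivity)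
      _ = _ := by ring
  have r0 : V0 * m3 ≤ ξ ^ 3 * (1 + 2 * ξ) * (V0 / 4) := by
    have : 0 ≤ V0 * ξ ^ 4 := by positivity
    have e : ξ ^ 3 * (1 + 2 * ξ) * (V0 / 4) = V0 * (ξ ^ 3 / 4) + V0 * ξ ^ 4 / 2 := by ring
    rw [e, ← hm3]; linarith
  have hR : (1 + m1 + m2 + m3) * u ≤ (V0 + u1 + V0 * m1 + u2 + u1 * m1 + V0 * m2)
      + ξ ^ 3 * (1 + 2 * ξ) * (4 * G4 + N2 + N1 / 2 + V0 / 4) := by
    have e : (1 + m1 + m2 + m3) * u = (V0 + u1 + V0 * m1 + u2 + u1 * m1 + V0 * m2)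
        + (u3 * (1 + m1 + m2 + m3) + u2 * (m1 + m2 + m3) + u1 * (m2 + m3) + V0 * m3) := by
      rw [hu']; ring
    have e' : ξ ^ 3 * (1 + 2 * ξ) * (4 * G4 + N2 + N1 / 2 + V0 / 4)
        = ξ ^ 3 * (1 + 2 * ξ) * (4 * G4) + ξ ^ 3 * (1 + 2 * ξ) * N2
          + ξ ^ 3 * (1 + 2 * ξ) * (N1 / 2) + ξ ^ 3 * (1 + 2 * ξ) * (V0 / 4) := by ring
    rw [e, e']; linarith
  have hR' := mul_le_mul_of_nonneg_left hR hμ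
  have hmain' : n1 * ξ + n2 * ξ ^ 2 + a11 * ξ ^ 2
      + μ * (ξ ^ 3 * (1 + 2 * ξ) * (4 * G4 + N2 + N1 / 2 + V0 / 4)) ≤ L0 - μ * V0 := by
    refine le_of_eq_of_le ?_ hmain; ring
  rw [mul_add] at hR'
  rw [mul_assoc]
  linarith [d1.1, d2.1, d3.1]

theorem root_near (y : ℂ) (ξ : ℝ) (h0 : 0 ≤ ξ) (hy : ‖y ^ 2 - 1‖ ≤ ξ * (2 - ξ))
    (hre : 0 ≤ y.re) : ‖y - 1‖ ≤ ξ := by
  by_contra hc
  push Not at hc
  have e : ‖y ^ 2 - 1‖ = ‖y - 1‖ * ‖y + 1‖ := by rw [← norm_mul]; congr 1; ring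
  have h2 : 2 - ‖y - 1‖ ≤ ‖y + 1‖ := by
    have : ‖(2 : ℂ)‖ ≤ ‖y + 1‖ + ‖y - 1‖ := by
      calc ‖(2 : ℂ)‖ = ‖(y + 1) - (y - 1)‖ := by congr 1; ring
        _ ≤ _ := norm_sub_le _ _
    simp at this; linarith
  have h4 : ‖y - 1‖ ≤ ‖y + 1‖ := by
    refine le_of_sq_le_sq ?_ (norm_nonneg _)
    rw [Complex.sq_norm, Complex.sq_norm, normSq_apply, normSq_apply]; simp; nlinarith
  rw [e] at hy
  rcases le_total ‖y - 1‖ 1 with h | h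
  · have : ‖y - 1‖ * (2 - ‖y - 1‖) ≤ ‖y - 1‖ * ‖y + 1‖ := by gcongr
    nlinarith
  · have : ‖y - 1‖ * ‖y - 1‖ ≤ ‖y - 1‖ * ‖y + 1‖ := by gcongr
    nlinarith

end Pool.Agent.MP_6e64bc_an.H26
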