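import Pool.Agent.MP_6e64bc_an.H26.Data0
import Pool.Agent.MP_6e64bc_an.H26.Data1
import Pool.Agent.MP_6e64bc_an.H26.Data2
import Pool.Agent.MP_6e64bc_an.H26.Data3

namespace Pool.Agent.MP_6e64bc_an.H26

noncomputable def tree : Tr :=
  (Tr.n (Tr.n (Tr.n (Tr.n (Tr.n c0 c16) (Tr.n c8 c24)) (Tr.n (Tr.n c4 c20) (Tr.n c12 c28))) (Tr.n (Tr.n (Tr.n c2 c18) (Tr.n c10 c26)) (Tr.n (Tr.n c6 c22) (Tr.n c14 c30)))) (Tr.n (Tr.n (Tr.n (Tr.n c1 c17) (Tr.n c9 c25)) (Tr.n (Tr.n c5 c21) (Tr.n c13 c29))) (Tr.n (Tr.n (Tr.n c3 c19) (Tr.n c11 c27)) (Tr.n (Tr.n c7 c23) (Tr.n c15 c31)))))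

end Pool.Agent.MP_6e64bc_an.H26
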