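import Pool.Agent.MP_6e64bc_an.H26.CertDefs

namespace Pool.Agent.MP_6e64bc_an.H26

theorem nrec_eq (N : ℕ) :
    (Nat.rec (Int.ofNat 0) (fun k _ => Int.negSucc k) N : ℤ) = -(N : ℤ) := by
  cases N with
  | zero => rfl
  | succ k => rfl

theorem zm_eq (a b : ℤ) : zm a b = a * b := by
  cases a with
  | ofNat m =>
    cases b with
    | ofNat n => rfl
    | negSucc n =>
      show (Nat.rec (Int.ofNat 0) (fun k _ => Int.negSucc k) (m * (n + 1)) : ℤ) = _
      rw [nrec_eq, Int.negSucc_eq]; push_cast; simp; ring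
  | negSucc m =>
    cases b with
    | ofNat n =>
      show (Nat.rec (Int.ofNat 0) (fun k _ => Int.negSucc k) ((m + 1) * n) : ℤ) = _
      rw [nrec_eq, Int.negSucc_eq]; push_cast; simp; ring
    | negSucc n => rfl

theorem snn_eq (m n : ℕ) : snn m n = (m : ℤ) - n := by
  unfold snn
  have h : ∀ N : ℕ, N = n - m →
      (Nat.rec (Int.ofNat (Nat.sub m n)) (fun k _ => Int.negSucc k) N : ℤ) = (m : ℤ) - n := by
    intro N hN
    cases N with
    | zero =>
      show ((m - n : ℕ) : ℤ) = _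
      omega
    | succ k =>
      show Int.negSucc k = _
      rw [Int.negSucc_eq]; omega
  exact h _ rfl

theorem za_eq (a b : ℤ) : za a b = a + b := by
  cases a with
  | ofNat m =>
    cases b with
    | ofNat n => rfl
    | negSucc n =>
      show snn m (n + 1) = _
      rw [snn_eq, Int.negSucc_eq]; simp; ring
  | negSucc m =>
    cases b with
    | ofNat n =>
      show snn n (m + 1) = _
      rw [snn_eq, Int.negSucc_eq]; simp; ring
    | negSucc n => rfl

theorem zs_eq (a b : ℤ) : zs a b = a - b := by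
  cases a with
  | ofNat m =>
    cases b with
    | ofNat n =>
      show snn m n = _
      rw [snn_eq]; simp
    | negSucc n =>
      show ((m + (n + 1) : ℕ) : ℤ) = _
      rw [Int.negSucc_eq]; simp; ring
  | negSucc m =>
    cases b with
    | ofNat n =>
      show Int.negSucc (m + n) = _
      rw [Int.negSucc_eq, Int.negSucc_eq]; simp; ring
    | negSucc n =>
      show snn n m = _
      rw [snn_eq, Int.negSucc_eq, Int.negSucc_eq]; ring

theorem zab_eq (a : ℤ) : (zab a : ℤ) = |a| := by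
  cases a with
  | ofNat m =>
    show (m : ℤ) = _
    simp
  | negSucc m =>
    show ((m + 1 : ℕ) : ℤ) = _
    rw [Int.negSucc_eq, abs_neg, abs_of_nonneg (by positivity)]; simp

theorem zle_iff (a b : ℤ) : zle a b = true ↔ a ≤ b := by
  cases a with
  | ofNat m =>
    cases b with
    | ofNat n =>
      show Nat.ble m n = true ↔ _
      simp
    | negSucc n =>
      show false = true ↔ _
      simp only [Int.ofNat_eq_natCast, Int.negSucc_eq]; constructor
      · intro h; cases h
      · intro h; omega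
  | negSucc m =>
    cases b with
    | ofNat n =>
      show true = true ↔ _
      simp only [Int.ofNat_eq_natCast, Int.negSucc_eq]; constructor
      · intro _; omega
      · intro _; trivial
    | negSucc n =>
      show Nat.ble n m = true ↔ _
      simp only [Int.negSucc_eq, Nat.ble_eq]; omega

namespace Dy

noncomputable def val (a : Dy) : ℝ := (a.m : ℝ) / 2 ^ a.e

theorem up_left (a b : Dy) : ((up a b.e : ℤ) : ℝ) = val a * 2 ^ mx a b := by
  have h : mx a b = a.e + (b.e - a.e) := rfl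
  have h2 : up a b.e = a.m * 2 ^ (b.e - a.e) := by
    unfold up; rw [zm_eq]; congr 1
  rw [h, h2, val, pow_add]; push_cast; field_simp

theorem up_right (a b : Dy) : ((up b a.e : ℤ) : ℝ) = val b * 2 ^ mx a b := by
  have h : mx a b = mx b a := by
    show a.e + (b.e - a.e) = b.e + (a.e - b.e)
    omega
  rw [h, up_left]

theorem val_mul (a b : Dy) : val (mul a b) = val a * val b := by
  show ((zm a.m b.m : ℤ) : ℝ) / 2 ^ (a.e + b.e) = _
  rw [zm_eq, pow_add, val, val]; push_cast; field_simp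

theorem val_add (a b : Dy) : val (add a b) = val a + val b := by
  show ((za (up a b.e) (up b a.e) : ℤ) : ℝ) / 2 ^ mx a b = _
  rw [za_eq]; push_cast; rw [up_left, up_right]; field_simp

theorem val_sub (a b : Dy) : val (sub a b) = val a - val b := by
  show ((zs (up a b.e) (up b a.e) : ℤ) : ℝ) / 2 ^ mx a b = _
  rw [zs_eq]; push_cast; rw [up_left, up_right]; field_simp

theorem le_iff (a b : Dy) : le a b = true ↔ val a ≤ val b := by
  unfold le
  rw [zle_iff, ← Int.cast_le (R := ℝ), up_left, up_right]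
  exact mul_le_mul_iff_left₀ (by positivity)

theorem lt_iff (a b : Dy) : lt a b = true ↔ val a < val b := by
  unfold lt
  rw [Bool.not_eq_true', ← Bool.not_eq_true, le_iff, not_le]

theorem val_ab (a : Dy) : val (ab a) = |val a| := by
  show (((zab a.m : ℕ) : ℤ) : ℝ) / 2 ^ a.e = _
  rw [zab_eq, val, abs_div, abs_of_pos (by positivity : (0 : ℝ) < 2 ^ a.e)]; push_cast; rfl

theorem val_hf (a : Dy) (k : ℕ) : val (hf a k) = val a / 2 ^ k := by
  show (a.m : ℝ) / 2 ^ (a.e + k) = _
  rw [val, pow_add]; field_simp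

theorem val_nat (k : ℕ) : val (nat k) = k := by
  show ((k : ℤ) : ℝ) / 2 ^ 0 = _
  simp

theorem nb2_ge (a b : ℕ) : 4 * ((a : ℤ) ^ 2 + (b : ℤ) ^ 2) ≤ nb2 a b ^ 2 ∧ 0 ≤ nb2 a b := by
  have h : nb2 a b = ((a + a + b + (b - a) : ℕ) : ℤ) := rfl
  rw [h]
  refine ⟨?_, by positivity⟩
  have ha : (0 : ℤ) ≤ a := by positivity
  have hb : (0 : ℤ) ≤ b := by positivity
  rcases le_total a b with hab | hab
  · have : ((a + a + b + (b - a) : ℕ) : ℤ) = a + 2 * b := by omega
    rw [this]
    have : (a : ℤ) ≤ b := by omega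
    nlinarith
  · have : ((a + a + b + (b - a) : ℕ) : ℤ) = 2 * a + b := by omega
    rw [this]
    have : (b : ℤ) ≤ a := by omega
    nlinarith

theorem norm_le_nb (a b : Dy) (z : ℂ) (h1 : z.re = val a) (h2 : z.im = val b) :
    2 * ‖z‖ ≤ val (nb a b) := by
  obtain ⟨h3, h4⟩ := nb2_ge (zab (up a b.e)) (zab (up b a.e))
  rw [zab_eq, zab_eq, sq_abs, sq_abs] at h3
  have hv : val (nb a b) = ((nb2 (zab (up a b.e)) (zab (up b a.e)) : ℤ) : ℝ) / 2 ^ mx a b := rfl
  have h3' : (4 : ℝ) * (((up a b.e : ℤ) : ℝ) ^ 2 + ((up b a.e : ℤ) : ℝ) ^ 2)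
      ≤ ((nb2 (zab (up a b.e)) (zab (up b a.e)) : ℤ) : ℝ) ^ 2 := by exact_mod_cast h3
  have h4' : (0 : ℝ) ≤ ((nb2 (zab (up a b.e)) (zab (up b a.e)) : ℤ) : ℝ) := by exact_mod_cast h4
  rw [up_left, up_right] at h3'
  rw [hv, le_div_iff₀ (by positivity)]
  refine le_of_sq_le_sq (by
    have : ‖z‖ ^ 2 = val a ^ 2 + val b ^ 2 := by
      rw [Complex.sq_norm, Complex.normSq_apply, h1, h2]; ring
    calc (2 * ‖z‖ * 2 ^ mx a b) ^ 2 = 4 * (‖z‖ ^ 2 * (2 ^ mx a b) ^ 2) := by ring
      _ = _ := by rw [this]; ring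
      _ ≤ _ := h3') h4'

end Dy

end Pool.Agent.MP_6e64bc_an.H26
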