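import Pool.Agent.MP_6e64bc_an.H26.Chain

namespace Pool.Agent.MP_6e64bc_an.H26

open Complex Metric Set

theorem log_near {L : ℂ → ℂ} {a : ℝ} (ha : 0 < a) (hL : DifferentiableOn ℂ L (ball 0 1))
    (h0 : (L 0).im = 0) (hb : ∀ z ∈ ball (0 : ℂ) 1, a ≤ ‖exp (L z)‖ ∧ ‖exp (L z)‖ ≤ 2)
    (w : ℂ) (hw : ‖w‖ ≤ 1 / 2) : ‖L w - Real.log a‖ ≤ 6 / a := by
  have hsub : closedBall (0 : ℂ) (1 / 2) ⊆ ball 0 1 := closedBall_subset_ball (by norm_num)
  have hda : ∀ z ∈ ball (0 : ℂ) 1, DifferentiableAt ℂ L z := fun z hz =>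
    (hL z hz).differentiableAt (isOpen_ball.mem_nhds hz)
  have h1 : ∀ z ∈ closedBall (0 : ℂ) (1 / 2), ‖deriv L z‖ ≤ 8 / a := fun z hz => by
    have h2 := deriv_le _ hL.cexp 2 (fun z hz => (hb z hz).2) z (hsub hz)
    rw [(hda z (hsub hz)).hasDerivAt.cexp.deriv, norm_mul] at h2
    have h3 : ‖z‖ ≤ 1 / 2 := by simpa using hz
    have h4 : 2 * 2 / (1 - ‖z‖) ≤ 8 := by rw [div_le_iff₀ (by linarith)]; linarith
    rw [le_div_iff₀ ha]
    nlinarith [(hb z (hsub hz)).1, norm_nonneg (deriv L z)]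
  have h2 := (convex_closedBall (0 : ℂ) (1 / 2)).norm_image_sub_le_of_norm_deriv_le
    (fun z hz => hda z (hsub hz)) h1 (x := 0) (y := w) (by simp) (by simpa using hw)
  have h3 : ‖L 0 - Real.log a‖ ≤ 2 / a := by
    obtain ⟨h4, h5⟩ := hb 0 (mem_ball_self one_pos)
    rw [norm_exp] at h4 h5
    have e : L 0 - Real.log a = (((L 0).re - Real.log a : ℝ) : ℂ) := by
      apply Complex.ext <;> simp [h0]
    have h6 : Real.log a ≤ (L 0).re := (Real.log_le_iff_le_exp ha).2 h4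
    rw [e, norm_real, Real.norm_eq_abs, abs_of_nonneg (by linarith)]
    have h7 := Real.add_one_le_exp ((L 0).re - Real.log a)
    rw [Real.exp_sub, Real.exp_log ha] at h7
    have h8 : Real.exp (L 0).re / a ≤ 2 / a := by gcongr
    linarith
  calc ‖L w - Real.log a‖ = ‖(L w - L 0) + (L 0 - Real.log a)‖ := by congr 1; ring
    _ ≤ _ := norm_add_le _ _
    _ ≤ 8 / a * (1 / 2) + 2 / a := by
        gcongr
        refine h2.trans ?_
        rw [sub_zero]; gcongr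
    _ = _ := by ring

theorem exists_G {L : ℂ → ℂ} {a : ℝ} (ha : 0 < a) (hL : DifferentiableOn ℂ L (ball 0 1))
    (h0 : (L 0).im = 0)
    (hb : ∀ z ∈ ball (0 : ℂ) 1, a ≤ ‖exp (L z)‖ ∧ ‖exp (L z)‖ ≤ 2 ∧ DD L z ≠ 0)
    (hi : ∀ z ∈ ball (0 : ℂ) 1, ∀ w ∈ ball (0 : ℂ) 1, z ≠ 0 → w ≠ 0 →
        exp (L z) / z = exp (L w) / w → z = w) (k : ℕ) (hk : 1 ≤ k) (hka : 6 / a ≤ k) :
    ∃ G : ℂ → ℂ, DifferentiableOn ℂ G (ball 0 1) ∧ InjOn G (ball 0 1) ∧
      (∀ z ∈ ball (0 : ℂ) 1, ‖G z‖ ≤ ‖z‖ ∧ deriv G z ≠ 0 ∧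
        (‖z ^ k‖ ≤ 1 / 2 → ‖G z - z‖ ≤ 12 / (a * k))) ∧
      ∀ r : ℝ, 0 < r → r < 1 → a / (4 * k) * ∫ θ in (0 : ℝ)..2 * Real.pi, ‖DD L (pt (r ^ k) θ)‖
        ≤ ∫ θ in (0 : ℝ)..2 * Real.pi, ‖deriv G (pt r θ)‖ := by
  have hk0 : k ≠ 0 := by omega
  have hkR : (1 : ℝ) ≤ k := by exact_mod_cast hk
  have hkC : (k : ℂ) ≠ 0 := by exact_mod_cast hk0
  set A : ℂ → ℂ := fun z => -(L (z ^ k) - Real.log a) / k with hA
  have hAd : ∀ z ∈ ball (0 : ℂ) 1, HasDerivAt A (-(deriv L (z ^ k) * (k * z ^ (k - 1))) / k) z :=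
    fun z hz => by
      have hzk := sq_mem hz k hk0
      exact (((((hL _ hzk).differentiableAt (isOpen_ball.mem_nhds hzk)).hasDerivAt.comp z
        (hasDerivAt_pow k z)).sub_const _).neg).div_const _
  have hGd : ∀ z ∈ ball (0 : ℂ) 1, HasDerivAt (fun z => z * exp (A z))
      (exp (A z) * (1 - z ^ k * deriv L (z ^ k))) z := fun z hz => by
    refine ((hasDerivAt_id' z).mul (hAd z hz).cexp).congr_deriv ?_
    have : z ^ k = z * z ^ (k - 1) := by rw [← pow_succ']; congr 1; omega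
    generalize deriv L (z ^ k) = d
    rw [this]; field_simp; ring
  have hG : DifferentiableOn ℂ (fun z => z * exp (A z)) (ball 0 1) := fun z hz =>
    (hGd z hz).differentiableAt.differentiableWithinAt
  have hre : ∀ z, (A z).re = -((L (z ^ k)).re - Real.log a) / k := fun z => by
    simp [hA, div_natCast_re]
  have hAn : ∀ z ∈ ball (0 : ℂ) 1, a / 2 ≤ ‖exp (A z)‖ ∧ ‖exp (A z)‖ ≤ 1 := fun z hz => by
    obtain ⟨h4, h5, -⟩ := hb _ (sq_mem hz k hk0)
    rw [norm_exp] at h4 h5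
    have h6 : Real.log a ≤ (L (z ^ k)).re := (Real.log_le_iff_le_exp ha).2 h4
    rw [norm_exp, hre]
    constructor
    · calc a / 2 ≤ a / Real.exp (L (z ^ k)).re := by gcongr
        _ = Real.exp (-((L (z ^ k)).re - Real.log a)) := by
          rw [neg_sub, Real.exp_sub, Real.exp_log ha]
        _ ≤ _ := by
          rw [Real.exp_le_exp, le_div_iff₀ (by linarith)]; nlinarith
    · rw [Real.exp_le_one_iff]
      exact div_nonpos_of_nonpos_of_nonneg (by linarith) (by linarith)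
  have hlow : ∀ z ∈ ball (0 : ℂ) 1,
      a / 4 * ‖DD L (z ^ k)‖ ≤ ‖deriv (fun z => z * exp (A z)) z‖ := fun z hz => by
    rw [(hGd z hz).deriv, DD, norm_mul, norm_mul]
    have h1 := (hAn z hz).1
    have h2 := (hb _ (sq_mem hz k hk0)).2.1
    have h3 := norm_nonneg (1 - z ^ k * deriv L (z ^ k))
    calc _ ≤ a / 4 * (2 * ‖1 - z ^ k * deriv L (z ^ k)‖) := by gcongr
      _ = a / 2 * ‖1 - z ^ k * deriv L (z ^ k)‖ := by ring
      _ ≤ _ := by gcongr
  refine ⟨fun z => z * exp (A z), hG, ?_, fun z hz => ⟨?_, ?_, fun h => ?_⟩, fun r hr hr1 => ?_⟩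
  · intro z hz w hw h
    simp only at h
    by_cases hz0 : z = 0
    · rw [hz0, zero_mul, eq_comm, mul_eq_zero] at h
      rw [hz0, h.resolve_right (exp_ne_zero _)]
    by_cases hw0 : w = 0
    · rw [hw0, zero_mul, mul_eq_zero] at h
      rw [hw0, h.resolve_right (exp_ne_zero _)]
    have hp : ∀ z : ℂ, (z * exp (A z)) ^ k * exp (L (z ^ k)) = z ^ k * a := fun z => by
      rw [mul_pow, ← exp_nat_mul, mul_assoc, ← exp_add]
      congr 1
      rw [show (k : ℂ) * A z + L (z ^ k) = Real.log a by simp only [hA]; field_simp; ring,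
        ← ofReal_exp, Real.exp_log ha]
    have h1 := hp z
    have h2 := hp w
    rw [← h] at h2
    have h3 : z ^ k = w ^ k := by
      refine hi _ (sq_mem hz k hk0) _ (sq_mem hw k hk0) (pow_ne_zero _ hz0) (pow_ne_zero _ hw0) ?_
      have h4 : (z * exp (A z)) ^ k ≠ 0 := pow_ne_zero _ (mul_ne_zero hz0 (exp_ne_zero _))
      rw [div_eq_div_iff (pow_ne_zero _ hz0) (pow_ne_zero _ hw0)]
      apply mul_left_cancel₀ h4
      linear_combination w ^ k * h1 - z ^ k * h2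
    have h5 : A z = A w := by simp only [hA, h3]
    rw [h5] at h
    exact mul_right_cancel₀ (exp_ne_zero _) h
  · rw [norm_mul]
    exact mul_le_of_le_one_right (norm_nonneg _) (hAn z hz).2
  · rw [← norm_pos_iff]
    refine lt_of_lt_of_le ?_ (hlow z hz)
    have := norm_pos_iff.2 (hb _ (sq_mem hz k hk0)).2.2
    positivity
  · have h1 := log_near ha hL h0 (fun z hz => ⟨(hb z hz).1, (hb z hz).2.1⟩) _ h
    have h2 : ‖A z‖ ≤ 6 / a / k := by
      simp only [hA, norm_div, norm_neg, norm_natCast]; gcongr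
    have h3 : ‖A z‖ ≤ 1 := h2.trans ((div_le_one (by linarith)).2 hka)
    have h4 := norm_exp_sub_one_le h3
    have h5 : ‖z‖ < 1 := by simpa using hz
    calc ‖z * exp (A z) - z‖ = ‖z‖ * ‖exp (A z) - 1‖ := by rw [← norm_mul]; congr 1; ring
      _ ≤ 1 * (2 * (6 / a / k)) := by gcongr; linarith
      _ = _ := by field_simp; ring
  · have hrk : r ^ k < 1 := pow_lt_one₀ hr.le hr1 hk0
    have hc : Continuous fun θ => ‖DD L (pt (r ^ k) θ)‖ :=
      (cont_pt_comp (DD_contOn hL) (by positivity) hrk).norm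
    have hc2 : Continuous fun θ => ‖deriv (fun z => z * exp (A z)) (pt r θ)‖ :=
      (cont_pt_comp (hG.deriv isOpen_ball).continuousOn hr.le hr1).norm
    have h1 : ∫ θ in (0 : ℝ)..2 * Real.pi, ‖DD L (pt (r ^ k) θ)‖
        ≤ ∫ θ in (k : ℝ) * 0..k * (2 * Real.pi), ‖DD L (pt (r ^ k) θ)‖ :=
      intervalIntegral.integral_mono_interval (by simp) (by positivity)
        (by nlinarith [Real.pi_pos]) (Filter.Eventually.of_forall fun θ => norm_nonneg _)
        (hc.intervalIntegrable _ _)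
    rw [← intervalIntegral.smul_integral_comp_mul_left, smul_eq_mul] at h1
    calc _ ≤ a / (4 * k) * (k * ∫ θ in (0 : ℝ)..2 * Real.pi, ‖DD L (pt (r ^ k) (k * θ))‖) := by
          gcongr
      _ = ∫ θ in (0 : ℝ)..2 * Real.pi, a / 4 * ‖DD L (pt (r ^ k) (k * θ))‖ := by
          rw [intervalIntegral.integral_const_mul]; field_simp
      _ ≤ _ := by
          refine intervalIntegral.integral_mono_on (by positivity)
            ((continuous_const.mul (hc.comp (f := fun θ : ℝ => (k : ℝ) * θ)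
              (by fun_prop))).intervalIntegrable _ _)
            (hc2.intervalIntegrable _ _) fun θ _ => ?_
          rw [← pt_pow]
          exact hlow _ (pt_mem θ hr.le hr1)

end Pool.Agent.MP_6e64bc_an.H26
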