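import Pool.Agent.MP_6e64bc_an.H26.Sound
import Pool.Agent.MP_6e64bc_an.H26.ChkAll

namespace Pool.Agent.MP_6e64bc_an.H26

open Complex Dy

def Tr.Mem (v : ℕ) (T : Tr) : Prop := Tr.rec (fun w => w = v) (fun _ _ ha hb => ha ∨ hb) T

theorem Tr.get_mem (T : Tr) : ∀ i, Tr.Mem (T.get i) T := by
  induction T with
  | l v => intro i; exact rfl
  | n a b iha ihb =>
    intro i
    show Tr.Mem (bif Nat.beq (Nat.mod i 2) 0 then a.get (Nat.div i 2) else b.get (Nat.div i 2)) a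
      ∨ Tr.Mem (bif Nat.beq (Nat.mod i 2) 0 then a.get (Nat.div i 2) else b.get (Nat.div i 2)) b
    cases Nat.beq (Nat.mod i 2) 0
    · exact Or.inr (ihb _)
    · exact Or.inl (iha _)

theorem Tr.all_mem (p : ℕ → Bool) (v : ℕ) (T : Tr) (h : Tr.all p T = true) (hv : Tr.Mem v T) :
    p v = true := by
  induction T with
  | l w =>
    have e : w = v := hv
    exact e ▸ h
  | n a b iha ihb =>
    have h' : (Tr.all p a && Tr.all p b) = true := h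
    rw [Bool.and_eq_true] at h'
    rcases (hv : Tr.Mem v a ∨ Tr.Mem v b) with h1 | h1
    · exact iha h'.1 h1
    · exact ihb h'.2 h1

theorem val_rad (e : Cell) : (rad e).val = ‖e.w0‖ ^ 2 * (e.X.val * (2 - e.X.val)) := by
  rw [Complex.sq_norm, normSq_apply]
  simp only [rad, Cell.w0, val_add, val_mul, val_sub, val_nat, cx_re, cx_im]
  push_cast; ring

theorem cell_root (e : Cell) (h0 : e.w0 ≠ 0) (hX : 0 < e.X.val) (w : ℂ)
    (h : e.In (w ^ 2 + cC)) :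
    ∃ x : ℂ, ‖x‖ ≤ e.X.val ∧ (w = e.w0 * (1 + x) ∨ w = -(e.w0 * (1 + x))) := by
  have hn : 0 < ‖e.w0‖ := norm_pos_iff.2 h0
  have h1 : ‖(w / e.w0) ^ 2 - 1‖ ≤ e.X.val * (2 - e.X.val) := by
    rw [Cell.In, val_rad] at h
    have : (w / e.w0) ^ 2 - 1 = (w ^ 2 + cC - (e.w0 ^ 2 + cC)) / e.w0 ^ 2 := by field_simp; ring
    rw [this, norm_div, norm_pow, div_le_iff₀ (by positivity)]
    linarith
  rcases le_total 0 (w / e.w0).re with h2 | h2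
  · exact ⟨w / e.w0 - 1, root_near _ _ hX.le h1 h2, Or.inl (by field_simp; ring)⟩
  · refine ⟨-(w / e.w0) - 1, root_near _ _ hX.le (by rwa [neg_sq]) (by simpa using h2),
      Or.inr (by field_simp; ring)⟩

def QQ (y : ℂ) (t : ℝ) : Prop := ∃ v, Tr.Mem v tree ∧ (dec v).In y ∧ t = (dec v).u y

theorem QQ_step (v : ℕ) (hv : Tr.Mem v tree) (w : ℂ) (h : (dec v).In (w ^ 2 + cC)) :
    (dec v).al.val / 2 ≤ (dec v).u (w ^ 2 + cC) ∧ (dec v).u (w ^ 2 + cC) ≤ 1 ∧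
    ∃ t1 t2, QQ w t1 ∧ QQ (-w) t2 ∧ 2 * lam.val * ‖w‖ * (dec v).u (w ^ 2 + cC) ≤ t1 + t2 := by
  have hc : chk (dec v) (dec (tree.get (tp v))) (dec (tree.get (tm v))) = true :=
    Tr.all_mem _ v tree okAll hv
  obtain ⟨b1, b2, -⟩ := chk_basic _ _ _ hc
  obtain ⟨x, hx, hw⟩ := cell_root _ b1 b2 w h
  obtain ⟨c1, c2, c3, c4, c5⟩ := chk_sound _ _ _ hc x hx
  have q1 : QQ _ _ := ⟨_, tree.get_mem (tp v), c1, rfl⟩
  have q2 : QQ _ _ := ⟨_, tree.get_mem (tm v), c2, rfl⟩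
  rcases hw with rfl | rfl
  · exact ⟨c3, c4, _, _, q1, q2, c5⟩
  · rw [neg_sq, neg_neg, norm_neg]
    exact ⟨c3, c4, _, _, q2, q1, by linarith⟩

theorem start_facts :
    (Dy.lt (nat 0) (dec (tree.get 3120)).al && Dy.lt (nat 0) (dI (nat 0) (dec (tree.get 3120))) &&
      Dy.lt (nat 16) (mul (nat 9) (add
        (mul (dR (nat 0) (dec (tree.get 3120))) (dR (nat 0) (dec (tree.get 3120))))
        (mul (dI (nat 0) (dec (tree.get 3120))) (dI (nat 0) (dec (tree.get 3120))))))) = true := by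
  decide +kernel

theorem exists_Q : ∃ Q : ℂ → ℝ → Prop, (∀ y t, Q y t → t ≤ 1) ∧
    (∀ w t, Q (w ^ 2 + cC) t →
      ∃ t1 t2, Q w t1 ∧ Q (-w) t2 ∧ 2 * lam.val * ‖w‖ * t ≤ t1 + t2) ∧
    ∃ (y0 : ℂ) (η t0 : ℝ), 4 / 3 < ‖y0‖ ∧ y0.im < 0 ∧ 0 < η ∧ 0 < t0 ∧
      ∀ y, ‖y - y0‖ ≤ η → ∃ t, t0 ≤ t ∧ Q y t := by
  have hsq : ∀ y : ℂ, ∃ w : ℂ, y = w ^ 2 + cC := fun y => by
    obtain ⟨w, hw⟩ := IsAlgClosed.exists_pow_nat_eq (y - cC) (n := 2) (by norm_num)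
    exact ⟨w, by rw [hw]; ring⟩
  refine ⟨QQ, ?_, ?_, ?_⟩
  · rintro y t ⟨v, hv, hin, rfl⟩
    obtain ⟨w, rfl⟩ := hsq y
    exact (QQ_step v hv w hin).2.1
  · rintro w t ⟨v, hv, hin, rfl⟩
    exact (QQ_step v hv w hin).2.2
  · have hm := tree.get_mem 3120
    have hs := start_facts
    generalize tree.get 3120 = v at hm hs
    have hc : chk (dec v) (dec (tree.get (tp v))) (dec (tree.get (tm v))) = true :=
      Tr.all_mem _ v tree okAll hm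
    obtain ⟨b1, b2, b3⟩ := chk_basic _ _ _ hc
    simp only [Bool.and_eq_true, Dy.lt_iff, val_nat, val_mul, val_add] at hs
    obtain ⟨⟨s1, s2⟩, s3⟩ := hs
    push_cast at s1 s2 s3
    have hd := d_eq (nat 0) (nat 0) (dec v)
    have h0 : cx (nat 0) (nat 0) = 0 := by apply Complex.ext <;> simp [val_nat]
    rw [h0, zero_sub, eq_comm, neg_eq_iff_eq_neg] at hd
    refine ⟨(dec v).w0 ^ 2 + cC, (rad (dec v)).val, (dec v).al.val / 2, ?_, ?_, ?_, by linarith, ?_⟩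
    · rw [hd, norm_neg]
      refine lt_of_pow_lt_pow_left₀ 2 (norm_nonneg _) ?_
      rw [Complex.sq_norm, normSq_apply, cx_re, cx_im]; linarith
    · rw [hd]; simpa using s2
    · rw [val_rad]
      have : 0 < ‖(dec v).w0‖ := norm_pos_iff.2 b1
      have : 0 < 2 - (dec v).X.val := by linarith
      positivity
    · intro y hy
      obtain ⟨w, rfl⟩ := hsq y
      exact ⟨_, (QQ_step v hm w hy).1, v, hm, hy, rfl⟩

theorem lam_gt : (2 : ℝ) ^ (121 / 500 : ℝ) < lam.val := by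
  have h1 : (663 / 10 : ℝ) ≤ lam.val ^ 25 := by
    show _ ≤ (((332904107605672 : ℤ) : ℝ) / 2 ^ 48) ^ 25
    norm_num
  refine lt_of_pow_lt_pow_left₀ 500 lam_pos.le ?_
  rw [← Real.rpow_natCast, ← Real.rpow_mul (by norm_num)]
  calc (2 : ℝ) ^ ((121 / 500 : ℝ) * ((500 : ℕ) : ℝ)) = 2 ^ 121 := by
        rw [← Real.rpow_natCast]; congr 1; norm_num
    _ < (663 / 10 : ℝ) ^ 20 := by norm_num
    _ ≤ (lam.val ^ 25) ^ 20 := by gcongr
    _ = _ := by rw [← pow_mul]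

structure Disc where
  zr : Dy
  zi : Dy
  a : Dy
  s : Dy

noncomputable def disc : ℕ → Disc
  | 1 => ⟨⟨Int.negSucc 596152911484, 40⟩, ⟨Int.ofNat 736258485083, 40⟩,
      ⟨Int.ofNat 947351492705, 40⟩, ⟨Int.ofNat 4194308, 40⟩⟩
  | 2 => ⟨⟨Int.negSucc 765935802605, 40⟩, ⟨Int.negSucc 62137145121, 40⟩,
      ⟨Int.ofNat 768452131573, 40⟩, ⟨Int.ofNat 7227745, 40⟩⟩
  | 3 => ⟨⟨Int.negSucc 66102465280, 40⟩, ⟨Int.ofNat 822829764400, 40⟩,
      ⟨Int.ofNat 825480682451, 40⟩, ⟨Int.ofNat 10103038, 40⟩⟩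
  | 4 => ⟨⟨Int.negSucc 1207951157427, 40⟩, ⟨Int.ofNat 637321694312, 40⟩,
      ⟨Int.ofNat 1365768992463, 40⟩, ⟨Int.ofNat 15170218, 40⟩⟩
  | 5 => ⟨⟨Int.ofNat 361515047716, 40⟩, ⟨Int.negSucc 664096834224, 40⟩,
      ⟨Int.ofNat 756120185522, 40⟩, ⟨Int.ofNat 37687879, 40⟩⟩
  | 6 => ⟨⟨Int.negSucc 878397744247, 40⟩, ⟨Int.ofNat 299553692431, 40⟩,
      ⟨Int.ofNat 928070585543, 40⟩, ⟨Int.ofNat 51836247, 40⟩⟩
  | 7 => ⟨⟨Int.ofNat 23986216857, 40⟩, ⟨Int.ofNat 257632736950, 40⟩,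
      ⟨Int.ofNat 258746914470, 40⟩, ⟨Int.ofNat 87509837, 40⟩⟩
  | 8 => ⟨⟨Int.negSucc 655997015800, 40⟩, ⟨Int.ofNat 747499175116, 40⟩,
      ⟨Int.ofNat 994528582566, 40⟩, ⟨Int.ofNat 41194164, 40⟩⟩
  | 9 => ⟨⟨Int.negSucc 712952887779, 40⟩, ⟨Int.negSucc 155696116946, 40⟩,
      ⟨Int.ofNat 729755507706, 40⟩, ⟨Int.ofNat 74523312, 40⟩⟩
  | 10 => ⟨⟨Int.negSucc 155902415598, 40⟩, ⟨Int.ofNat 938173577910, 40⟩,
      ⟨Int.ofNat 951039024162, 40⟩, ⟨Int.ofNat 98928606, 40⟩⟩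
  | 11 => ⟨⟨Int.negSucc 1374556775053, 40⟩, ⟨Int.ofNat 470206679258, 40⟩,
      ⟨Int.ofNat 1452756224928, 40⟩, ⟨Int.ofNat 171148459, 40⟩⟩
  | 12 => ⟨⟨Int.ofNat 921168019447, 40⟩, ⟨Int.negSucc 439401253881, 40⟩,
      ⟨Int.ofNat 1020599814798, 40⟩, ⟨Int.ofNat 452294693, 40⟩⟩
  | _ => ⟨⟨Int.ofNat 0, 40⟩, ⟨Int.ofNat 0, 40⟩,
      ⟨Int.ofNat 0, 40⟩, ⟨Int.ofNat 2147483648, 40⟩⟩

noncomputable def chkD2 (d : Disc) (x y r : Dy) : Bool :=
  Dy.le (add (mul d.zr d.zr) (mul d.zi d.zi)) (mul d.a d.a) && Dy.le (nat 0) d.a &&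
  Dy.le (mul (nat 3) (add d.a d.s)) (nat 4) && Dy.le (nat 0) r &&
  Dy.le (add (mul x x) (mul y y)) (mul r r)

noncomputable def chkD (d e : Disc) : Bool :=
  chkD2 d (sub (add (sub (mul d.zr d.zr) (mul d.zi d.zi)) cr) e.zr)
    (sub (add (mul (nat 2) (mul d.zr d.zi)) ci) e.zi)
    (sub e.s (add (mul (nat 2) (mul d.a d.s)) (mul d.s d.s)))

theorem chkD_sound (d e : Disc) (h : chkD d e = true) (z : ℂ) (hz : ‖z - cx d.zr d.zi‖ ≤ d.s.val) :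
    ‖z‖ ≤ 4 / 3 ∧ ‖z ^ 2 + cC - cx e.zr e.zi‖ ≤ e.s.val := by
  simp only [chkD, chkD2, Bool.and_eq_true, Dy.le_iff, val_add, val_mul, val_sub, val_nat] at h
  obtain ⟨⟨⟨⟨h1, h2⟩, h3⟩, h4⟩, h5⟩ := h
  push_cast at h2 h3 h4 h5
  have ha : ‖cx d.zr d.zi‖ ≤ d.a.val := by
    refine le_of_sq_le_sq ?_ h2
    rw [Complex.sq_norm, normSq_apply, pow_two]; exact h1
  have hb : ‖cx d.zr d.zi ^ 2 + cC - cx e.zr e.zi‖
      ≤ e.s.val - (2 * (d.a.val * d.s.val) + d.s.val * d.s.val) := by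
    refine le_of_sq_le_sq ?_ h4
    rw [Complex.sq_norm, normSq_apply, pow_two (_ - _)]
    refine le_of_eq_of_le ?_ h5
    simp only [cC, pow_two, sub_re, sub_im, add_re, add_im, mul_re, mul_im, cx_re, cx_im]
    ring
  set p := cx d.zr d.zi
  constructor
  · calc ‖z‖ = ‖p + (z - p)‖ := by congr 1; ring
      _ ≤ ‖p‖ + ‖z - p‖ := norm_add_le _ _
      _ ≤ _ := by linarith
  · calc ‖z ^ 2 + cC - cx e.zr e.zi‖
        = ‖(p ^ 2 + cC - cx e.zr e.zi) + (2 * (p * (z - p)) + (z - p) * (z - p))‖ := by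
          congr 1; ring
      _ ≤ ‖p ^ 2 + cC - cx e.zr e.zi‖ + (‖2 * (p * (z - p))‖ + ‖(z - p) * (z - p)‖) :=
          (norm_add_le _ _).trans (by gcongr; exact norm_add_le _ _)
      _ ≤ ‖p ^ 2 + cC - cx e.zr e.zi‖ + (2 * (d.a.val * d.s.val) + d.s.val * d.s.val) := by
          rw [norm_mul, norm_mul, norm_mul, Complex.norm_two]
          have := norm_nonneg (z - p)
          gcongr
          linarith
      _ ≤ _ := by linarith

theorem discs_ok : ∀ i < 13, chkD (disc i) (disc ((i + 1) % 13)) = true := by decide +kernel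

theorem trap (z : ℂ) (hz : ‖z‖ ≤ 1 / 512) (n : ℕ) : ‖(fun w => w ^ 2 + cC)^[n] z‖ ≤ 4 / 3 := by
  have h : ∀ n : ℕ, ‖(fun w => w ^ 2 + cC)^[n] z - cx (disc (n % 13)).zr (disc (n % 13)).zi‖
      ≤ (disc (n % 13)).s.val := by
    intro n
    induction n with
    | zero =>
      have h0 : cx (disc (0 % 13)).zr (disc (0 % 13)).zi = 0 := by
        apply Complex.ext
        · show ((0 : ℤ) : ℝ) / 2 ^ 40 = 0
          simp
        · show ((0 : ℤ) : ℝ) / 2 ^ 40 = 0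
          simp
      have h1 : (disc (0 % 13)).s.val = 1 / 512 := by
        show ((2147483648 : ℤ) : ℝ) / 2 ^ 40 = _
        norm_num
      rw [h0, h1]; simpa using hz
    | succ k ih =>
      rw [Function.iterate_succ_apply']
      have := (chkD_sound _ _ (discs_ok (k % 13) (Nat.mod_lt _ (by norm_num))) _ ih).2
      rwa [Nat.mod_add_mod] at this
  exact (chkD_sound _ _ (discs_ok (n % 13) (Nat.mod_lt _ (by norm_num))) _ (h n)).1

end Pool.Agent.MP_6e64bc_an.H26
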