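import Pool.Agent.MP_6e64bc_an.H26.Chain

namespace Pool.Agent.MP_6e64bc_an.H26

open Complex Metric Set Finset
open scoped ComplexConjugate

noncomputable def co (f : ℂ → ℂ) (n : ℕ) : ℂ := iteratedDeriv n f 0 / n.factorial

theorem pt_ne {R : ℝ} (hR : 0 < R) (θ : ℝ) : pt R θ ≠ 0 := by
  rw [← norm_pos_iff, norm_pt _ _ hR.le]; exact hR

theorem co_int {f : ℂ → ℂ} {R : ℝ} (hR : 0 < R) (hf : DiffContOnCl ℂ f (ball 0 R)) (n : ℕ) :
    ∫ θ in (0 : ℝ)..2 * Real.pi, f (pt R θ) / pt R θ ^ n = 2 * Real.pi * co f n := by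
  have h := hf.circleIntegral_one_div_sub_center_pow_smul hR n
  have e : ∀ θ, deriv (circleMap 0 R) θ • ((1 / (circleMap 0 R θ - 0) ^ (n + 1)) •
      f (circleMap 0 R θ)) = I * (f (pt R θ) / pt R θ ^ n) := fun θ => by
    rw [deriv_circleMap, circleMap_zero, ← pt]
    have := pt_ne hR θ
    simp only [smul_eq_mul, sub_zero]
    field_simp
    ring
  simp only [circleIntegral, e] at h
  rw [intervalIntegral.integral_const_mul, smul_eq_mul] at h
  apply mul_left_cancel₀ I_ne_zero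
  rw [h, co]; ring

theorem poisson_int {f : ℂ → ℂ} (hf : DiffContOnCl ℂ f (ball 0 1)) {w : ℂ} (hw : ‖w‖ < 1) :
    ∫ θ in (0 : ℝ)..2 * Real.pi, (((1 - ‖w‖ ^ 2) / ‖pt 1 θ - w‖ ^ 2 : ℝ) : ℂ) * f (pt 1 θ)
      = 2 * Real.pi * f w := by
  have h := hf.circleAverage_poissonKernel_smul' (w := w) (by simpa using hw)
  rw [Real.circleAverage_def] at h
  rw [← h, real_smul, ← mul_assoc]
  have : (2 * Real.pi : ℂ) * ((2 * Real.pi)⁻¹ : ℝ) = 1 := by
    have : (Real.pi : ℂ) ≠ 0 := by exact_mod_cast Real.pi_ne_zero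
    push_cast; field_simp
  rw [this, one_mul]
  refine intervalIntegral.integral_congr fun θ _ => ?_
  have e : circleMap 0 1 θ = pt 1 θ := circleMap_zero 1 θ
  simp only [e, sub_zero, norm_pt 1 θ zero_le_one, real_smul, one_pow]

theorem poisson_one {w : ℂ} (hw : ‖w‖ < 1) :
    ∫ θ in (0 : ℝ)..2 * Real.pi, (1 - ‖w‖ ^ 2) / ‖pt 1 θ - w‖ ^ 2 = 2 * Real.pi := by
  have h := poisson_int (f := fun _ => 1) diffContOnCl_const hw
  simp only [mul_one] at h
  rw [intervalIntegral.integral_ofReal] at h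
  exact_mod_cast h

theorem swap_int {F : ℝ → ℝ → ℂ} (hF : Continuous F.uncurry) (a b c d : ℝ) :
    ∫ x in a..b, ∫ y in c..d, F x y = ∫ y in c..d, ∫ x in a..b, F x y :=
  MeasureTheory.intervalIntegral_intervalIntegral_swap
    ((hF.continuousOn.integrableOn_compact (isCompact_uIcc.prod isCompact_uIcc)).mono_set
      (Set.prod_mono uIoc_subset_uIcc uIoc_subset_uIcc))

noncomputable def kk (q : ℝ) (N : ℕ) (u v : ℂ) : ℂ :=
  ∑ ij ∈ range (N + 1) ×ˢ range (N + 1),
    u ^ (N - ij.1 + ij.2) * ((1 - q ^ 2) * (q * v) ^ ij.1 * (q * conj v) ^ ij.2)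

theorem sub_ne {q : ℝ} (hq : 0 < q) (hq1 : q < 1) {u v : ℂ} (hu : ‖u‖ = 1) (hv : ‖v‖ = 1) :
    0 < ‖u - q * v‖ := by
  have := norm_sub_norm_le u (q * v)
  rw [norm_mul, norm_real, Real.norm_eq_abs, abs_of_pos hq, hu, hv] at this
  linarith

theorem kk_eq {q : ℝ} (hq : 0 < q) (hq1 : q < 1) (N : ℕ) {u v : ℂ} (hu : ‖u‖ = 1) (hv : ‖v‖ = 1) :
    ∃ e : ℝ, |e| ≤ 3 * q ^ (N + 1) ∧
      kk q N u v = u ^ N * (((1 - q ^ 2) / ‖u - q * v‖ ^ 2 * (1 + e) : ℝ) : ℂ) := by
  set x := q * u * conj v with hx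
  have huu : u * conj u = 1 := by rw [mul_conj, normSq_eq_norm_sq, hu]; simp
  have hxn : ‖x‖ = q := by simp [hx, hu, hv, abs_of_pos hq]
  set S := ∑ j ∈ range (N + 1), x ^ j with hS
  have h1 : kk q N u v = u ^ N * ((1 - q ^ 2) * (conj S * S)) := by
    rw [kk, hS, map_sum, sum_mul_sum, mul_sum, mul_sum, sum_product]
    refine sum_congr rfl fun i hi => ?_
    rw [mul_sum, mul_sum]
    refine sum_congr rfl fun j _ => ?_
    have hi' : i ≤ N := by simpa [Nat.lt_succ_iff] using hi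
    obtain ⟨k, rfl⟩ := Nat.exists_eq_add_of_le hi'
    have h2 : u ^ i * conj u ^ i = 1 := by rw [← mul_pow, huu, one_pow]
    simp only [hx, map_pow, map_mul, conj_ofReal, conj_conj, Nat.add_sub_cancel_left, mul_pow,
      pow_add]
    linear_combination (-(u ^ k * u ^ j * (1 - (q : ℂ) ^ 2) * q ^ i * v ^ i * q ^ j
      * conj v ^ j)) * h2
  have h2 : ‖S‖ * ‖u - q * v‖ = ‖1 - x ^ (N + 1)‖ := by
    have e1 : ‖u - q * v‖ = ‖1 - x‖ := by
      have : u - q * v = u * conj (1 - x) := by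
        simp only [hx, map_sub, map_mul, map_one, conj_ofReal, conj_conj]
        linear_combination (q * v) * huu
      rw [this, norm_mul, hu, one_mul, norm_conj]
    rw [e1, ← norm_mul, hS, geom_sum_mul_neg]
  have h3 := sub_ne hq hq1 hu hv
  set y := x ^ (N + 1) with hy
  have hyn : ‖y‖ = q ^ (N + 1) := by rw [hy, norm_pow, hxn]
  have hq2 : q ^ (N + 1) ≤ 1 := pow_le_one₀ hq.le hq1.le
  refine ⟨‖1 - y‖ ^ 2 - 1, ?_, ?_⟩
  · have a1 := norm_sub_le 1 y
    have a2 := norm_sub_norm_le 1 y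
    rw [norm_one, hyn] at a1 a2
    have a3 : 0 ≤ q ^ (N + 1) := by positivity
    rw [abs_le]; constructor <;> nlinarith [norm_nonneg (1 - y)]
  · rw [h1, mul_comm (conj S), mul_conj, normSq_eq_norm_sq, ← h2]
    congr 1
    norm_cast
    field_simp
    ring

theorem exists_poly {h : ℂ → ℂ} (hd : DifferentiableOn ℂ h (ball 0 1))
    (hne : ∀ z ∈ ball (0 : ℂ) 1, h z ≠ 0) {b q M : ℝ} (hb : 0 < b) (hb1 : b < 1) (hq : 0 < q)
    (hq1 : q < 1) (hM : ∀ z : ℂ, ‖z‖ = b → ‖h z‖ ≤ M) (N : ℕ) :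
    ∃ p : ℂ → ℂ, Differentiable ℂ p ∧ (∀ u : ℂ, ‖u‖ ≤ 1 → ‖p u‖ ≤ 8 * Real.pi) ∧
      2 * Real.pi * ((∫ θ in (0 : ℝ)..2 * Real.pi, ‖h (pt (b * q) θ)‖)
          - 6 * Real.pi * q ^ (N + 1) * M)
        ≤ ‖∫ θ in (0 : ℝ)..2 * Real.pi, h (b * pt 1 θ) * p (pt 1 θ) / pt 1 θ ^ N‖ := by
  have hρ : 0 < b * q := by positivity
  have hρ1 : b * q < 1 := by nlinarith
  have hpi := Real.pi_pos
  have hq2 : 0 < 1 - q ^ 2 := by nlinarith
  have hn1 : ∀ θ, ‖pt 1 θ‖ = 1 := fun θ => norm_pt 1 θ zero_le_one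
  have hc1 : Continuous fun φ => h (pt (b * q) φ) := cont_pt_comp hd.continuousOn hρ.le hρ1
  have hne1 : ∀ φ, h (pt (b * q) φ) ≠ 0 := fun φ => hne _ (pt_mem φ hρ.le hρ1)
  set σ : ℝ → ℂ := fun φ => (‖h (pt (b * q) φ)‖ : ℂ) / h (pt (b * q) φ) with hσ
  have hσc : Continuous σ := (continuous_ofReal.comp hc1.norm).div hc1 hne1
  have hσn : ∀ φ, ‖σ φ‖ = 1 := fun φ => by
    simp only [hσ, norm_div, norm_real, norm_norm]
    exact div_self (norm_ne_zero_iff.2 (hne1 φ))
  have hbu : ∀ θ, b * pt 1 θ = pt b θ := fun θ => by simp [pt]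
  have hc2 : Continuous fun θ => h (b * pt 1 θ) := by
    simp only [hbu]; exact cont_pt_comp hd.continuousOn hb.le hb1
  have hkc : Continuous fun x : ℂ × ℂ => kk q N x.1 x.2 := by unfold kk; fun_prop
  set p : ℂ → ℂ := fun u => ∫ φ in (0 : ℝ)..2 * Real.pi, σ φ * kk q N u (pt 1 φ) with hp
  have hpd : Differentiable ℂ p := by
    have : p = fun u => ∑ ij ∈ range (N + 1) ×ˢ range (N + 1), u ^ (N - ij.1 + ij.2) *
        ∫ φ in (0 : ℝ)..2 * Real.pi,
          σ φ * ((1 - q ^ 2) * (q * pt 1 φ) ^ ij.1 * (q * conj (pt 1 φ)) ^ ij.2) := by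
      funext u
      simp only [hp, kk, mul_sum]
      rw [intervalIntegral.integral_finsetSum fun i _ =>
        Continuous.intervalIntegrable (by fun_prop) _ _]
      refine sum_congr rfl fun i _ => ?_
      rw [← intervalIntegral.integral_const_mul]
      congr 1; funext φ; ring
    rw [this]; fun_prop
  have hPc : ∀ w : ℂ, ‖w‖ = 1 → Continuous fun θ => (1 - q ^ 2) / ‖pt 1 θ - q * w‖ ^ 2 :=
    fun w hw => continuous_const.div (by fun_prop)
      fun θ => (pow_pos (sub_ne hq hq1 (hn1 θ) hw) 2).ne'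
  have hqn : ∀ w : ℂ, ‖w‖ = 1 → ‖q * w‖ = q := fun w hw => by simp [hw, abs_of_pos hq]
  have hP1 : ∀ w : ℂ, ‖w‖ = 1 →
      ∫ θ in (0 : ℝ)..2 * Real.pi, (1 - q ^ 2) / ‖pt 1 θ - q * w‖ ^ 2 = 2 * Real.pi := fun w hw => by
    have := poisson_one (w := q * w) (by rw [hqn w hw]; exact hq1)
    rwa [hqn w hw] at this
  refine ⟨p, hpd, fun u hu => ?_, ?_⟩
  · refine norm_le_of_forall_mem_frontier_norm_le (U := ball 0 1) isBounded_ball hpd.diffContOnCl
      (fun u hu => ?_) (by rw [closure_ball _ one_ne_zero]; simpa using hu)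
    rw [frontier_ball _ one_ne_zero] at hu
    have hu1 : ‖u‖ = 1 := by simpa using hu
    calc ‖p u‖ ≤ ∫ φ in (0 : ℝ)..2 * Real.pi, 4 * ((1 - q ^ 2) / ‖pt 1 φ - q * u‖ ^ 2) := by
          refine intervalIntegral.norm_integral_le_of_norm_le (by positivity)
            (Filter.Eventually.of_forall fun φ _ => ?_)
            ((continuous_const.mul (hPc u hu1)).intervalIntegrable _ _)
          obtain ⟨e, he, hk⟩ := kk_eq hq hq1 N hu1 (hn1 φ)
          have hsym : ‖u - q * pt 1 φ‖ = ‖pt 1 φ - q * u‖ := by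
            rw [← sq_eq_sq₀ (norm_nonneg _) (norm_nonneg _), ← normSq_eq_norm_sq,
              ← normSq_eq_norm_sq, normSq_sub, normSq_sub, normSq_mul, normSq_mul,
              normSq_eq_norm_sq u, normSq_eq_norm_sq (pt 1 φ), hu1, hn1]
            simp; ring
          have hq3 : q ^ (N + 1) ≤ 1 := pow_le_one₀ hq.le hq1.le
          rw [norm_mul, hσn, hk, norm_mul, norm_pow, hu1, norm_real, hsym, Real.norm_eq_abs,
            abs_mul, abs_of_nonneg (by positivity), one_pow, one_mul, one_mul, mul_comm]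
          gcongr
          have := abs_le.1 he
          rw [abs_le]; constructor <;> linarith
      _ = _ := by rw [intervalIntegral.integral_const_mul, hP1 u hu1]; ring
  · have hM0 : 0 ≤ M := (norm_nonneg _).trans (hM (pt b 0) (norm_pt _ _ hb.le))
    have e1 : ∫ θ in (0 : ℝ)..2 * Real.pi, h (b * pt 1 θ) * p (pt 1 θ) / pt 1 θ ^ N
        = ∫ φ in (0 : ℝ)..2 * Real.pi, ∫ θ in (0 : ℝ)..2 * Real.pi,
          σ φ * (h (b * pt 1 θ) * kk q N (pt 1 θ) (pt 1 φ) / pt 1 θ ^ N) := by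
      rw [← swap_int]
      · refine intervalIntegral.integral_congr fun θ _ => ?_
        simp only [hp]
        rw [← intervalIntegral.integral_const_mul, ← intervalIntegral.integral_div]
        congr 1; funext φ; ring
      · refine (hσc.comp continuous_snd).mul (((hc2.comp continuous_fst).mul
          (hkc.comp (f := fun x : ℝ × ℝ => (pt 1 x.1, pt 1 x.2)) (by fun_prop))).div
          (by fun_prop) fun x => pow_ne_zero _ (pt_ne one_pos _))
    have hdb : DiffContOnCl ℂ (fun u => h (b * u)) (ball 0 1) := by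
      apply DifferentiableOn.diffContOnCl
      rw [closure_ball _ one_ne_zero]
      refine hd.comp (by fun_prop) fun u hu => ?_
      have : ‖u‖ ≤ 1 := by simpa using hu
      simp only [mem_ball_zero_iff, norm_mul, norm_real, Real.norm_eq_abs, abs_of_pos hb]
      nlinarith
    have e2 : ∀ φ, ‖(∫ θ in (0 : ℝ)..2 * Real.pi,
          σ φ * (h (b * pt 1 θ) * kk q N (pt 1 θ) (pt 1 φ) / pt 1 θ ^ N))
          - 2 * Real.pi * (‖h (pt (b * q) φ)‖ : ℂ)‖ ≤ 3 * q ^ (N + 1) * M * (2 * Real.pi) := by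
      intro φ
      have a1 := poisson_int hdb (w := q * pt 1 φ) (by rw [hqn _ (hn1 φ)]; exact hq1)
      rw [hqn _ (hn1 φ)] at a1
      have a2 : (b : ℂ) * (q * pt 1 φ) = pt (b * q) φ := by simp [pt]; ring
      simp only [a2] at a1
      have a3 : 2 * Real.pi * (‖h (pt (b * q) φ)‖ : ℂ) = σ φ * (2 * Real.pi * h (pt (b * q) φ)) := by
        have := hne1 φ
        simp only [hσ]; field_simp
      have c1 : Continuous fun θ => h (b * pt 1 θ) * kk q N (pt 1 θ) (pt 1 φ) / pt 1 θ ^ N :=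
        (hc2.mul (hkc.comp (f := fun x : ℝ => (pt 1 x, pt 1 φ)) (by fun_prop))).div
          (by fun_prop) fun x => pow_ne_zero _ (pt_ne one_pos _)
      have c2 := hPc _ (hn1 φ)
      have c3 : Continuous fun θ =>
          (((1 - q ^ 2) / ‖pt 1 θ - q * pt 1 φ‖ ^ 2 : ℝ) : ℂ) * h (b * pt 1 θ) :=
        (continuous_ofReal.comp c2).mul hc2
      rw [a3, ← a1, intervalIntegral.integral_const_mul, ← mul_sub, norm_mul, hσn, one_mul,
        ← intervalIntegral.integral_sub (c1.intervalIntegrable _ _) (c3.intervalIntegrable _ _)]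
      calc _ ≤ ∫ θ in (0 : ℝ)..2 * Real.pi,
            3 * q ^ (N + 1) * M * ((1 - q ^ 2) / ‖pt 1 θ - q * pt 1 φ‖ ^ 2) := by
            refine intervalIntegral.norm_integral_le_of_norm_le (by positivity)
              (Filter.Eventually.of_forall fun θ _ => ?_)
              ((continuous_const.mul c2).intervalIntegrable _ _)
            obtain ⟨e, he, hk⟩ := kk_eq hq hq1 N (hn1 θ) (hn1 φ)
            have h0 : pt 1 θ ^ N ≠ 0 := pow_ne_zero _ (pt_ne one_pos _)
            have h1 := hM (b * pt 1 θ) (by rw [hbu, norm_pt _ _ hb.le])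
            rw [hk]
            set P : ℝ := (1 - q ^ 2) / ‖pt 1 θ - q * pt 1 φ‖ ^ 2
            have hP : 0 ≤ P := by positivity
            rw [show h (b * pt 1 θ) * (pt 1 θ ^ N * ((P * (1 + e) : ℝ) : ℂ)) / pt 1 θ ^ N
                - P * h (b * pt 1 θ) = (e : ℂ) * h (b * pt 1 θ) * P by
              push_cast; field_simp; ring, norm_mul, norm_mul, norm_real, norm_real,
              Real.norm_eq_abs, Real.norm_eq_abs, abs_of_nonneg hP]
            gcongr
        _ = _ := by rw [intervalIntegral.integral_const_mul, hP1 _ (hn1 φ)]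
    have c4 : Continuous fun φ => ∫ θ in (0 : ℝ)..2 * Real.pi,
        σ φ * (h (b * pt 1 θ) * kk q N (pt 1 θ) (pt 1 φ) / pt 1 θ ^ N) := by
      refine intervalIntegral.continuous_parametric_intervalIntegral_of_continuous' ?_ _ _
      exact (hσc.comp continuous_fst).mul (((hc2.comp continuous_snd).mul
          (hkc.comp (f := fun x : ℝ × ℝ => (pt 1 x.2, pt 1 x.1)) (by fun_prop))).div
          (by fun_prop) fun x => pow_ne_zero _ (pt_ne one_pos _))
    have c5 : Continuous fun φ => 2 * Real.pi * (‖h (pt (b * q) φ)‖ : ℂ) :=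
      continuous_const.mul (continuous_ofReal.comp hc1.norm)
    have e3 := intervalIntegral.norm_integral_le_of_norm_le_const (a := 0) (b := 2 * Real.pi)
      fun φ _ => e2 φ
    rw [intervalIntegral.integral_sub (c4.intervalIntegrable _ _) (c5.intervalIntegrable _ _),
      ← e1, intervalIntegral.integral_const_mul, intervalIntegral.integral_ofReal, sub_zero,
      abs_of_pos (by positivity), norm_sub_rev] at e3
    have e4 := (norm_sub_norm_le _ _).trans e3
    have e5 : 2 * Real.pi * ∫ θ in (0 : ℝ)..2 * Real.pi, ‖h (pt (b * q) θ)‖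
        ≤ ‖2 * Real.pi * ((∫ θ in (0 : ℝ)..2 * Real.pi, ‖h (pt (b * q) θ)‖ : ℝ) : ℂ)‖ := by
      refine le_trans (le_of_eq ?_) (re_le_norm _)
      simp only [mul_re, mul_im, re_ofNat, im_ofNat, ofReal_re, ofReal_im]; ring
    linarith

end Pool.Agent.MP_6e64bc_an.H26
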