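import Pool.Agent.MP_6e64bc_an.H26.CJ
import Pool.Agent.MP_6e64bc_an.H26.GMap
import Pool.Agent.MP_6e64bc_an.H26.Iface

namespace Pool.Agent.MP_6e64bc_an.H26

open Complex Metric Set Filter Topology

theorem choose_n {c1 lam : ℝ} (hc : 0 < c1) (hlam : (2 : ℝ) ^ (121 / 500 : ℝ) < lam) (B : ℕ)
    (hB : 1 ≤ B) (N0 : ℕ) : ∃ n : ℕ, 1 ≤ n ∧ N0 ≤ n ∧
      2 * ((2 * B * n * 2 ^ n : ℕ) : ℝ) ^ (-(379 / 500 : ℝ))
        ≤ (c1 * lam ^ n - 24 * Real.pi * B) / (512 * Real.pi * (2 * B * n * 2 ^ n : ℕ)) := by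
  have hpi := Real.pi_pos
  obtain ⟨μ, hμ⟩ : ∃ μ : ℝ, μ = (2 : ℝ) ^ (121 / 500 : ℝ) := ⟨_, rfl⟩
  have hμ1 : 1 ≤ μ := hμ ▸ Real.one_le_rpow (by norm_num) (by norm_num)
  rw [← hμ] at hlam
  have hl0 : 0 < lam := by linarith
  have hB1 : (1 : ℝ) ≤ B := by exact_mod_cast hB
  have ht := tendsto_self_mul_const_pow_of_lt_one (r := μ / lam) (by positivity)
    ((div_lt_one hl0).2 hlam)
  have h1 := ht.eventually (ge_mem_nhds (show 0 < c1 / (2072 * Real.pi * B) by positivity))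
  obtain ⟨n, hn1, hn2, hn3⟩ := (h1.and ((eventually_ge_atTop 1).and (eventually_ge_atTop N0))).exists
  refine ⟨n, hn2, hn3, ?_⟩
  have hn : (1 : ℝ) ≤ n := by exact_mod_cast hn2
  obtain ⟨N, hN⟩ : ∃ N : ℝ, N = ((2 * B * n * 2 ^ n : ℕ) : ℝ) := ⟨_, rfl⟩
  rw [← hN]
  push_cast at hN
  have hN0 : 0 < N := by rw [hN]; positivity
  have h2 : N ^ (-(379 / 500 : ℝ)) = N ^ (121 / 500 : ℝ) / N := by
    rw [← Real.rpow_sub_one hN0.ne']; norm_num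
  have h3 : N ^ (121 / 500 : ℝ) ≤ 2 * B * n * μ ^ n := by
    rw [hN, Real.mul_rpow (by positivity) (by positivity), hμ, ← Real.rpow_natCast,
      ← Real.rpow_mul (by norm_num), mul_comm (n : ℝ), Real.rpow_mul (by norm_num),
      Real.rpow_natCast]
    gcongr
    exact Real.rpow_le_self_of_one_le (by nlinarith) (by norm_num)
  have h4 : 1 ≤ n * μ ^ n := one_le_mul_of_one_le_of_one_le hn (one_le_pow₀ hμ1)
  rw [div_pow, ← mul_div_assoc, div_le_div_iff₀ (by positivity) (by positivity)] at hn1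
  rw [h2, le_div_iff₀ (by positivity)]
  have h5 : 2 * (N ^ (121 / 500 : ℝ) / N) * (512 * Real.pi * N)
      = 1024 * Real.pi * N ^ (121 / 500 : ℝ) := by field_simp; norm_num
  rw [h5]
  have h6 : 1024 * Real.pi * N ^ (121 / 500 : ℝ) ≤ 1024 * Real.pi * (2 * B * n * μ ^ n) := by gcongr
  have h7 : 24 * Real.pi * B * 1 ≤ 24 * Real.pi * B * (n * μ ^ n) := by gcongr
  linarith

def Nice (F : ℂ → ℂ) : Prop :=
  DifferentiableOn ℂ F (ball 0 1) ∧ InjOn F (ball 0 1) ∧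
    ∀ z ∈ ball (0 : ℂ) 1, ‖F z‖ ≤ 1 ∧ deriv F z ≠ 0

theorem Nice.comp {F Φ : ℂ → ℂ} (hF : Nice F) (hd : DifferentiableOn ℂ Φ (ball 0 1))
    (hi : InjOn Φ (ball 0 1)) (h : ∀ z ∈ ball (0 : ℂ) 1, Φ z ∈ ball (0 : ℂ) 1 ∧ deriv Φ z ≠ 0) :
    Nice (F ∘ Φ) ∧ ∀ z ∈ ball (0 : ℂ) 1, deriv (F ∘ Φ) z = deriv F (Φ z) * deriv Φ z := by
  have hm : MapsTo Φ (ball 0 1) (ball 0 1) := fun z hz => (h z hz).1
  have hder : ∀ z ∈ ball (0 : ℂ) 1, deriv (F ∘ Φ) z = deriv F (Φ z) * deriv Φ z := fun z hz =>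
    deriv_comp z ((hF.1 _ (hm hz)).differentiableAt (isOpen_ball.mem_nhds (hm hz)))
      ((hd z hz).differentiableAt (isOpen_ball.mem_nhds hz))
  exact ⟨⟨hF.1.comp hd hm, hF.2.1.comp hi hm, fun z hz => ⟨(hF.2.2 _ (hm hz)).1, by
    rw [hder z hz]; exact mul_ne_zero (hF.2.2 _ (hm hz)).2 (h z hz).2⟩⟩, hder⟩

theorem radius_facts {τ η : ℝ} (hτ : 0 < τ) (hτ1 : τ < 1) (hη : 0 < η) (hη1 : η ≤ 1 / 2)
    (k B n : ℕ) (hk : 1 ≤ k) (hn : 1 ≤ n) (hkη : (1 - η) ^ k ≤ τ) (hB : k / (1 - τ) ≤ B) :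
    ∃ δ : ℝ, 0 < δ ∧ δ ≤ η ∧ ((1 - δ) ^ k) ^ 2 ^ n = τ ∧ 2 ≤ δ * (2 * B * n * 2 ^ n : ℕ) ∧
      (1 - δ / 2) ^ (2 * B * n * 2 ^ n) / δ ≤ B := by
  have hK : k * 2 ^ n ≠ 0 := by positivity
  obtain ⟨r, hr⟩ : ∃ r : ℝ, r = τ ^ (((k * 2 ^ n : ℕ) : ℝ)⁻¹) := ⟨_, rfl⟩
  have hr0 : 0 < r := hr ▸ Real.rpow_pos_of_pos hτ _
  have hrK : r ^ (k * 2 ^ n) = τ := hr ▸ Real.rpow_inv_natCast_pow hτ.le hK
  have hr1 : r < 1 := by
    by_contra h
    have := one_le_pow₀ (n := k * 2 ^ n) (not_lt.1 h)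
    linarith
  have h1 : 1 - η ≤ r := by
    refine le_of_pow_le_pow_left₀ hK hr0.le ?_
    rw [hrK]
    refine le_trans (pow_le_pow_of_le_one (by linarith) (by linarith) ?_) hkη
    exact Nat.le_mul_of_pos_right _ (by positivity)
  have h2 := one_add_mul_le_pow (a := r - 1) (by linarith) (k * 2 ^ n)
  rw [add_sub_cancel, hrK] at h2
  push_cast at h2
  rw [div_le_iff₀ (by linarith)] at hB
  have h2n : (0 : ℝ) < 2 ^ n := by positivity
  have h3 : 1 ≤ (1 - r) * (B * 2 ^ n) := by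
    have h4 : (1 - r) * 2 ^ n * k ≤ (1 - r) * 2 ^ n * (B * (1 - τ)) := by
      gcongr
    have h5 : (1 - τ) * 1 ≤ (1 - τ) * ((1 - r) * (B * 2 ^ n)) := by linarith
    exact le_of_mul_le_mul_left h5 (by linarith)
  have hn1 : (1 : ℝ) ≤ n := by exact_mod_cast hn
  have h6 : 2 * n ≤ (1 - r) * (2 * B * n * 2 ^ n : ℕ) := by
    push_cast
    have := mul_le_mul_of_nonneg_left h3 (by positivity : (0 : ℝ) ≤ 2 * n)
    linarith
  refine ⟨1 - r, by linarith, by linarith, by rw [sub_sub_cancel, ← pow_mul, hrK], by linarith, ?_⟩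
  have h7 : (1 - (1 - r) / 2) ^ (2 * B * n * 2 ^ n) ≤ (1 / 2) ^ n := by
    calc _ ≤ Real.exp (-((1 - r) / 2)) ^ (2 * B * n * 2 ^ n) := by
          gcongr
          · linarith
          · linarith [Real.add_one_le_exp (-((1 - r) / 2))]
      _ = Real.exp (-((1 - r) * (2 * B * n * 2 ^ n : ℕ) / 2)) := by
          rw [← Real.exp_nat_mul]; congr 1; ring
      _ ≤ Real.exp (n * (-1)) := by gcongr; linarith
      _ = Real.exp (-1) ^ n := Real.exp_nat_mul _ _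
      _ ≤ (1 / 2) ^ n := by
          gcongr
          rw [Real.exp_neg, one_div]
          exact inv_anti₀ two_pos (by linarith [Real.add_one_le_exp 1])
  rw [div_le_iff₀ (by linarith)]
  refine h7.trans ?_
  rw [one_div, inv_pow, inv_le_iff_one_le_mul₀ h2n]
  linarith

theorem key {F : ℂ → ℂ} (hF : Nice F) {s ε : ℝ} (hs0 : 0 < s) (hs : s < 1) (hε : 0 < ε) (N0 : ℕ) :
    ∃ F', Nice F' ∧ (∀ z : ℂ, ‖z‖ ≤ s → ‖F' z - F z‖ ≤ ε) ∧
      ∃ N, N0 ≤ N ∧ 2 * (N : ℝ) ^ (-(379 / 500 : ℝ)) ≤ ‖co F' N‖ := by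
  obtain ⟨Q, hQ1, hQ2, y0, η0, t0, hy0, hy1, hη0, ht0, hQ3⟩ := exists_Q
  obtain ⟨L, κ, τ, hκ, hτ, hτ1, hL⟩ := chain_props cC (4 / 3) (1 / 512) lam.val (by norm_num)
    (by norm_num) (by have := trap 0 (by simp) 1; simp at this; linarith) (by norm_num) lam_pos
    trap Q hQ1 hQ2 y0 η0 t0 hy0 hy1 hη0 ht0 hQ3
  obtain ⟨a, ha⟩ : ∃ a : ℝ, a = 1 / 512 / 2 := ⟨_, rfl⟩
  rw [← ha] at hL
  have ha0 : 0 < a := by rw [ha]; norm_num
  obtain ⟨s1, hs1⟩ : ∃ s1 : ℝ, s1 = (1 + s) / 2 := ⟨_, rfl⟩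
  have hsub : closedBall (0 : ℂ) s1 ⊆ ball 0 1 := closedBall_subset_ball (by linarith)
  obtain ⟨η1, hη1, huc⟩ := Metric.uniformContinuousOn_iff_le.1
    ((isCompact_closedBall (0 : ℂ) s1).uniformContinuousOn_of_continuous
      (hF.1.continuousOn.mono hsub)) ε hε
  obtain ⟨η, hη⟩ : ∃ η : ℝ, η = min η1 ((1 - s) / 2) / 3 := ⟨_, rfl⟩
  have hηa : 3 * η ≤ η1 := by linarith [min_le_left η1 ((1 - s) / 2)]
  have hηb : 3 * η ≤ (1 - s) / 2 := by linarith [min_le_right η1 ((1 - s) / 2)]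
  have hη2 : 0 < η := by
    have : 0 < min η1 ((1 - s) / 2) := lt_min hη1 (by linarith)
    linarith
  have hsub2 : closedBall (0 : ℂ) (1 - η) ⊆ ball 0 1 := closedBall_subset_ball (by linarith)
  obtain ⟨z0, hz0, hmin⟩ := (isCompact_closedBall (0 : ℂ) (1 - η)).exists_isMinOn
    (nonempty_closedBall.2 (by linarith))
    (((hF.1.deriv isOpen_ball).continuousOn.mono hsub2).norm)
  obtain ⟨m, hm⟩ : ∃ m, m = ‖deriv F z0‖ := ⟨_, rfl⟩
  have hm0 : 0 < m := hm ▸ norm_pos_iff.2 (hF.2.2 _ (hsub2 hz0)).2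
  obtain ⟨k, hk1, hk2, hk3, hk4, hk5⟩ : ∃ k : ℕ, 1 ≤ k ∧ 6 / a ≤ k ∧ 12 / (a * η) ≤ k ∧
      s1 ^ k ≤ 1 / 2 ∧ (1 - η) ^ k ≤ τ := by
    have t1 := tendsto_natCast_atTop_atTop (R := ℝ)
    exact ((eventually_ge_atTop 1).and ((t1.eventually_ge_atTop _).and
      ((t1.eventually_ge_atTop _).and
      (((tendsto_pow_atTop_nhds_zero_of_lt_one (by linarith) (by linarith)).eventually
        (ge_mem_nhds (by norm_num))).and
      ((tendsto_pow_atTop_nhds_zero_of_lt_one (by linarith) (by linarith)).eventually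
        (ge_mem_nhds hτ)))))).exists
  have hkR : (1 : ℝ) ≤ k := by exact_mod_cast hk1
  obtain ⟨B, hB⟩ := exists_nat_ge (k / (1 - τ))
  have hB1 : 1 ≤ B := by
    have : (0 : ℝ) < k / (1 - τ) := div_pos (by linarith) (by linarith)
    exact Nat.pos_of_ne_zero fun h => by rw [h] at hB; simp at hB; linarith
  obtain ⟨n, hn1, hn2, hn3⟩ := choose_n (c1 := m * (1 - η) * (a / (4 * k) * κ))
    (by have : 0 < 1 - η := by linarith
        positivity) lam_gt B hB1 N0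
  obtain ⟨δ, hδ0, hδ1, hδ2, hδ3, hδ4⟩ := radius_facts hτ hτ1 hη2 (by linarith) k B n hk1 hn1 hk5 hB
  obtain ⟨l1, l2, l3, l4, l5⟩ := hL n
  obtain ⟨G, g1, g2, g3, g4⟩ := exists_G ha0 l1 l2 l3 l4 k hk1 hk2
  have hσ : ((1 - η : ℝ) : ℂ) ≠ 0 := by exact_mod_cast (by linarith : (1 - η) ≠ 0)
  have hσn : ∀ z : ℂ, ‖((1 - η : ℝ) : ℂ) * z‖ = (1 - η) * ‖z‖ := fun z => by
    rw [norm_mul, norm_real, Real.norm_eq_abs, abs_of_pos (by linarith)]
  have hGm : ∀ z ∈ ball (0 : ℂ) 1, ((1 - η : ℝ) : ℂ) * G z ∈ closedBall (0 : ℂ) (1 - η) :=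
    fun z hz => by
      rw [mem_closedBall_zero_iff, hσn]
      exact mul_le_of_le_one_right (by linarith) ((g3 z hz).1.trans (mem_ball_zero_iff.1 hz).le)
  obtain ⟨hH, hH'⟩ := hF.comp (Φ := fun z => ((1 - η : ℝ) : ℂ) * G z) (g1.const_mul _)
    (fun z hz w hw h => g2 hz hw (mul_left_cancel₀ hσ h))
    (fun z hz => ⟨hsub2 (hGm z hz), by
      rw [deriv_const_mul_field']; exact mul_ne_zero hσ (g3 z hz).2.1⟩)
  obtain ⟨χ, c1, c2, c3, c4⟩ := cj hH.1 (fun z hz => (hH.2.2 z hz).1) (fun z hz => (hH.2.2 z hz).2)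
    hδ0 (by linarith) _ hδ3
  refine ⟨_, (hH.comp c1.differentiableOn c2 fun z hz => ⟨(c3 z hz).1, (c3 z hz).2.1⟩).1,
    fun z hz => ?_, 2 * B * n * 2 ^ n, ?_, hn3.trans (le_trans ?_ c4)⟩
  · have hz1 : z ∈ ball (0 : ℂ) 1 := mem_ball_zero_iff.2 (by linarith)
    obtain ⟨d1, -, d3⟩ := c3 z hz1
    have d4 : ‖χ z‖ ≤ s1 := by linarith [norm_le_insert' (χ z) z]
    obtain ⟨e1, -, e3⟩ := g3 _ d1
    have e4 := e3 (by rw [norm_pow]; exact le_trans (by gcongr) hk4)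
    have e5 : 12 / (a * k) ≤ η := by
      rw [div_le_iff₀ (by positivity)] at hk3 ⊢; linarith
    have e6 : ‖((1 - η : ℝ) : ℂ) * G (χ z) - z‖ ≤ 3 * η := by
      have e7 : ‖(η : ℂ) * G (χ z)‖ ≤ η := by
        rw [norm_mul, norm_real, Real.norm_eq_abs, abs_of_pos hη2]
        exact mul_le_of_le_one_right hη2.le (e1.trans (mem_ball_zero_iff.1 d1).le)
      calc _ = ‖(G (χ z) - χ z) + (χ z - z) - η * G (χ z)‖ := by congr 1; push_cast; ring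
        _ ≤ ‖G (χ z) - χ z‖ + ‖χ z - z‖ + ‖(η : ℂ) * G (χ z)‖ :=
            (norm_sub_le _ _).trans (by gcongr; exact norm_add_le _ _)
        _ ≤ _ := by linarith
    rw [← dist_eq_norm]
    refine huc _ ?_ _ (mem_closedBall_zero_iff.2 (by linarith)) (by rw [dist_eq_norm]; linarith)
    rw [mem_closedBall_zero_iff]
    linarith [norm_le_insert' (((1 - η : ℝ) : ℂ) * G (χ z)) z]
  · calc N0 ≤ n := hn2
      _ = 1 * n * 1 := by ring
      _ ≤ _ := by gcongr; omega; exact Nat.one_le_two_pow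
  · have hr0 : 0 < 1 - δ := by linarith
    have hr1 : 1 - δ < 1 := by linarith
    have i1 := l5 _ (pow_pos hr0 k) hδ2
    have i2 := g4 _ hr0 hr1
    have i3 : ∫ θ in (0 : ℝ)..2 * Real.pi, m * (1 - η) * ‖deriv G (pt (1 - δ) θ)‖
        ≤ ∫ θ in (0 : ℝ)..2 * Real.pi,
          ‖deriv (F ∘ fun z => ((1 - η : ℝ) : ℂ) * G z) (pt (1 - δ) θ)‖ := by
      refine intervalIntegral.integral_mono_on (by positivity)
        ((continuous_const.mul (cont_pt_comp (g1.deriv isOpen_ball).continuousOn hr0.le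
          hr1).norm).intervalIntegrable _ _)
        ((cont_pt_comp (hH.1.deriv isOpen_ball).continuousOn hr0.le hr1).norm.intervalIntegrable
          _ _) fun θ _ => ?_
      have hp := pt_mem θ hr0.le hr1
      rw [hH' _ hp, deriv_const_mul_field', norm_mul, hσn, mul_assoc]
      have : 0 ≤ (1 - η) * ‖deriv G (pt (1 - δ) θ)‖ := mul_nonneg (by linarith) (norm_nonneg _)
      gcongr
      rw [hm]; exact hmin (hGm _ hp)
    rw [intervalIntegral.integral_const_mul] at i3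
    have i4 : m * (1 - η) * (a / (4 * k) * (κ * lam.val ^ n))
        ≤ m * (1 - η) * ∫ θ in (0 : ℝ)..2 * Real.pi, ‖deriv G (pt (1 - δ) θ)‖ := by
      have : 0 < 1 - η := by linarith
      gcongr
      exact le_trans (by gcongr) i2
    have i5 : 24 * Real.pi * (1 - δ / 2) ^ (2 * B * n * 2 ^ n) / δ ≤ 24 * Real.pi * B := by
      rw [mul_div_assoc]; have := Real.pi_pos; gcongr
    have := Real.pi_pos
    gcongr ?_ / _
    linarith

end Pool.Agent.MP_6e64bc_an.H26
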