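import Pool.Agent.MP_6e64bc_an.H26.Key

namespace Pool.Agent.MP_6e64bc_an.H26

open Complex Metric Set Filter Topology

theorem inj_lim (F : ℕ → ℂ → ℂ) (f : ℂ → ℂ) (hF : ∀ j, DifferentiableOn ℂ (F j) (ball 0 1))
    (hi : ∀ j, InjOn (F j) (ball 0 1)) (hf : DifferentiableOn ℂ f (ball 0 1))
    (hc : ∀ ρ < (1 : ℝ), ∀ η > (0 : ℝ), ∃ j, ∀ z : ℂ, ‖z‖ ≤ ρ → ‖F j z - f z‖ ≤ η)
    (h0 : deriv f 0 ≠ 0) : InjOn f (ball 0 1) := by
  intro z1 h1 z2 h2 he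
  by_contra hne
  have han := hf.analyticOnNhd isOpen_ball
  rcases (han z2 h2).eventually_eq_or_eventually_ne (g := fun _ => f z1) analyticAt_const with h | h
  · have h3 := han.eqOn_of_preconnected_of_eventuallyEq (g := fun _ => f z1) analyticOnNhd_const
      (convex_ball (0 : ℂ) 1).isPreconnected h2 h
    apply h0
    rw [(eventuallyEq_of_mem (isOpen_ball.mem_nhds (mem_ball_self one_pos)) h3).deriv_eq]
    simp
  rw [eventually_nhdsWithin_iff] at h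
  have h2' : ‖z2‖ < 1 := by simpa using h2
  have h1' : ‖z1‖ < 1 := by simpa using h1
  obtain ⟨r0, hr0, hr⟩ := nhds_basis_closedBall.eventually_iff.1
    (h.and (eventually_ne_nhds (Ne.symm hne)))
  obtain ⟨r, hrd⟩ : ∃ r, r = min r0 ((1 - ‖z2‖) / 2) := ⟨_, rfl⟩
  have hr1 : 0 < r := hrd ▸ lt_min hr0 (by linarith)
  have hr2 : r ≤ r0 := hrd ▸ min_le_left _ _
  have hr3 : r ≤ (1 - ‖z2‖) / 2 := hrd ▸ min_le_right _ _
  have hn : ∀ z ∈ closedBall z2 r, ‖z‖ ≤ ‖z2‖ + r := fun z hz => by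
    rw [mem_closedBall, dist_eq_norm] at hz
    linarith [norm_le_insert' z z2]
  have hsub : closedBall z2 r ⊆ ball 0 1 := fun z hz =>
    mem_ball_zero_iff.2 (by linarith [hn z hz])
  obtain ⟨w, hw, hmin⟩ := (isCompact_sphere z2 r).exists_isMinOn
    (NormedSpace.sphere_nonempty.2 hr1.le) (f := fun z => ‖f z - f z1‖)
    ((hf.continuousOn.mono (sphere_subset_closedBall.trans hsub)).sub continuousOn_const).norm
  obtain ⟨μ, hμ⟩ : ∃ μ, μ = ‖f w - f z1‖ := ⟨_, rfl⟩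
  have hμ0 : 0 < μ := by
    rw [hμ, norm_pos_iff, sub_ne_zero]
    exact (hr (closedBall_subset_closedBall hr2 (sphere_subset_closedBall hw))).1
      (ne_of_mem_sphere hw hr1.ne')
  obtain ⟨j, hj⟩ := hc (max (‖z2‖ + r) ‖z1‖) (max_lt (by linarith) h1') (μ / 8) (by positivity)
  have j1 := hj z1 (le_max_right _ _)
  have j2 : ∀ z ∈ closedBall z2 r, ‖F j z - f z‖ ≤ μ / 8 := fun z hz =>
    hj z ((hn z hz).trans (le_max_left _ _))
  have hnz : ∀ z ∈ closedBall z2 r, F j z - F j z1 ≠ 0 := fun z hz h4 =>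
    (hr (closedBall_subset_closedBall hr2 hz)).2 (hi j (hsub hz) h1 (sub_eq_zero.1 h4))
  have hd : DiffContOnCl ℂ (fun z => (F j z - F j z1)⁻¹) (ball z2 r) := by
    apply DifferentiableOn.diffContOnCl
    rw [closure_ball _ hr1.ne']
    exact (((hF j).mono hsub).sub_const _).inv hnz
  have h5 := norm_le_of_forall_mem_frontier_norm_le isBounded_ball hd (C := (3 * μ / 4)⁻¹)
    (z := z2) (fun z hz => by
      rw [frontier_ball _ hr1.ne'] at hz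
      rw [norm_inv]
      apply inv_anti₀ (by positivity)
      have a1 : μ ≤ ‖f z - f z1‖ := hμ ▸ hmin hz
      have a2 := j2 z (sphere_subset_closedBall hz)
      have a3 : ‖f z - f z1‖ ≤ ‖F j z - F j z1‖ + ‖F j z1 - f z1‖ + ‖F j z - f z‖ := by
        calc _ = ‖(F j z - F j z1) + (F j z1 - f z1) - (F j z - f z)‖ := by congr 1; ring
          _ ≤ _ := (norm_sub_le _ _).trans (by gcongr; exact norm_add_le _ _)
      linarith) (subset_closure (mem_ball_self hr1))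
  rw [norm_inv, inv_le_inv₀ (norm_pos_iff.2 (hnz _ (mem_closedBall_self hr1.le)))
    (by positivity)] at h5
  have a2 := j2 z2 (mem_closedBall_self hr1.le)
  have a3 : ‖F j z2 - F j z1‖ ≤ ‖F j z2 - f z2‖ + ‖F j z1 - f z1‖ := by
    calc _ = ‖(F j z2 - f z2) - (F j z1 - f z1)‖ := by rw [he]; congr 1; ring
      _ ≤ _ := norm_sub_le _ _
  linarith

theorem co_close {f g : ℂ → ℂ} (hf : DifferentiableOn ℂ f (ball 0 1))
    (hg : DifferentiableOn ℂ g (ball 0 1)) {C : ℝ} (h : ∀ z : ℂ, ‖z‖ ≤ 1 / 2 → ‖f z - g z‖ ≤ C)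
    (n : ℕ) : ‖co f n - co g n‖ ≤ C * 2 ^ n := by
  have hm : ball (0 : ℂ) 1 ∈ 𝓝 0 := isOpen_ball.mem_nhds (mem_ball_self one_pos)
  have hd : DiffContOnCl ℂ (f - g) (ball 0 (1 / 2)) := by
    apply DifferentiableOn.diffContOnCl
    rw [closure_ball _ (by norm_num)]
    exact (hf.sub hg).mono (closedBall_subset_ball (by norm_num))
  have h1 := norm_iteratedDeriv_le_of_forall_mem_sphere_norm_le n (by norm_num) hd (C := C)
    fun z hz => h z (by simp at hz; simp [hz])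
  rw [iteratedDeriv_sub (hf.analyticAt hm).contDiffAt (hg.analyticAt hm).contDiffAt] at h1
  rw [co, co, ← sub_div, norm_div, norm_natCast, div_le_iff₀ (by positivity)]
  refine h1.trans (le_of_eq ?_)
  rw [one_div, inv_pow]; field_simp

theorem exists_seq : ∃ (F : ℕ → ℂ → ℂ) (ε : ℕ → ℝ), F 0 = id ∧ ε 0 = 1 / 8 ∧ ∀ j, Nice (F j) ∧
    0 < ε j ∧ ε (j + 1) ≤ ε j / 2 ∧
    (∀ z : ℂ, ‖z‖ ≤ 1 - 1 / ((j : ℝ) + 2) → ‖F (j + 1) z - F j z‖ ≤ ε j) ∧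
    ∃ N, j ≤ N ∧ 2 * (N : ℝ) ^ (-(379 / 500 : ℝ)) ≤ ‖co (F (j + 1)) N‖ ∧
      4 * ε (j + 1) * 2 ^ N ≤ (N : ℝ) ^ (-(379 / 500 : ℝ)) := by
  have step : ∀ (j : ℕ) (x : {x : (ℂ → ℂ) × ℝ // Nice x.1 ∧ 0 < x.2}),
      ∃ y : {x : (ℂ → ℂ) × ℝ // Nice x.1 ∧ 0 < x.2}, y.1.2 ≤ x.1.2 / 2 ∧
      (∀ z : ℂ, ‖z‖ ≤ 1 - 1 / ((j : ℝ) + 2) → ‖y.1.1 z - x.1.1 z‖ ≤ x.1.2) ∧
      ∃ N, j ≤ N ∧ 2 * (N : ℝ) ^ (-(379 / 500 : ℝ)) ≤ ‖co y.1.1 N‖ ∧
        4 * y.1.2 * 2 ^ N ≤ (N : ℝ) ^ (-(379 / 500 : ℝ)) := by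
    rintro j ⟨⟨F, ε⟩, hF, hε⟩
    have hj : (0 : ℝ) ≤ j := Nat.cast_nonneg j
    obtain ⟨F', h1, h2, N, h3, h4⟩ := key hF (s := 1 - 1 / ((j : ℝ) + 2))
      (by rw [sub_pos, div_lt_one (by linarith)]; linarith)
      (by have : 0 < 1 / ((j : ℝ) + 2) := by positivity
          linarith) hε (j + 1)
    have hN : (0 : ℝ) < N := by exact_mod_cast (by omega : 0 < N)
    have hp := Real.rpow_pos_of_pos hN (-(379 / 500 : ℝ))
    refine ⟨⟨⟨F', min (ε / 2) ((N : ℝ) ^ (-(379 / 500 : ℝ)) / (4 * 2 ^ N))⟩, h1,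
      lt_min (half_pos hε) (by positivity)⟩, min_le_left _ _, h2, N, by omega, h4, ?_⟩
    have := min_le_right (ε / 2) ((N : ℝ) ^ (-(379 / 500 : ℝ)) / (4 * 2 ^ N))
    rw [le_div_iff₀ (by positivity)] at this
    linarith
  choose f hf using step
  have n0 : Nice id := ⟨differentiableOn_id, injOn_id _, fun z hz =>
    ⟨(mem_ball_zero_iff.1 hz).le, by simp⟩⟩
  let s : ℕ → {x : (ℂ → ℂ) × ℝ // Nice x.1 ∧ 0 < x.2} := fun n =>
    Nat.rec ⟨⟨id, 1 / 8⟩, n0, by norm_num⟩ f n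
  exact ⟨fun n => (s n).1.1, fun n => (s n).1.2, rfl, rfl,
    fun n => ⟨(s n).2.1, (s n).2.2, hf n (s n)⟩⟩

theorem exists_lim : ∃ f : ℂ → ℂ, DifferentiableOn ℂ f (ball 0 1) ∧ InjOn f (ball 0 1) ∧
    (∀ z ∈ ball (0 : ℂ) 1, ‖f z‖ ≤ 1) ∧ ‖deriv f 0 - 1‖ ≤ 1 / 2 ∧
    ∀ j : ℕ, ∃ N : ℕ, j ≤ N ∧ 3 / 2 * (N : ℝ) ^ (-(379 / 500 : ℝ)) ≤ ‖co f N‖ := by
  obtain ⟨F, ε, hF0, hε0, h⟩ := exists_seq
  have hgeo : ∀ j i, ε (j + i) ≤ 2 * ε j / 2 / 2 ^ i := by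
    intro j i
    induction i with
    | zero => simp
    | succ i ih =>
      refine (h (j + i)).2.2.1.trans ?_
      rw [pow_succ, ← div_div]; gcongr
  have hdist : ∀ (j : ℕ) (z : ℂ), ‖z‖ ≤ 1 - 1 / ((j : ℝ) + 2) → ∀ i,
      dist (F (i + j) z) (F (i + 1 + j) z) ≤ 2 * ε j / 2 / 2 ^ i := by
    intro j z hz i
    rw [dist_comm, dist_eq_norm, show i + 1 + j = j + i + 1 by ring, add_comm i j]
    refine ((h (j + i)).2.2.2.1 z (hz.trans ?_)).trans (hgeo j i)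
    push_cast
    have : (0 : ℝ) ≤ i := Nat.cast_nonneg i
    gcongr; linarith
  set f : ℂ → ℂ := fun z => limUnder atTop fun i => F i z with hf
  have ht : ∀ (j : ℕ) (z : ℂ), ‖z‖ ≤ 1 - 1 / ((j : ℝ) + 2) →
      Tendsto (fun i => F i z) atTop (𝓝 (f z)) := fun j z hz =>
    ((cauchySeq_shift j).1 (cauchySeq_of_le_geometric_two (hdist j z hz))).tendsto_limUnder
  have hclose : ∀ (j : ℕ) (z : ℂ), ‖z‖ ≤ 1 - 1 / ((j : ℝ) + 2) → ‖F j z - f z‖ ≤ 2 * ε j := by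
    intro j z hz
    have := dist_le_of_le_geometric_two_of_tendsto₀ (hdist j z hz)
      ((tendsto_add_atTop_iff_nat j).2 (ht j z hz))
    rwa [zero_add, dist_eq_norm] at this
  have hev : ∀ ρ < (1 : ℝ), ∀ η > (0 : ℝ), ∀ᶠ j : ℕ in atTop,
      ρ ≤ 1 - 1 / ((j : ℝ) + 2) ∧ 2 * ε j ≤ η := by
    intro ρ hρ η hη
    have t1 : Tendsto (fun j : ℕ => 1 / ((j : ℝ) + 2)) atTop (𝓝 0) :=
      tendsto_const_nhds.div_atTop (tendsto_natCast_atTop_atTop.atTop_add tendsto_const_nhds)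
    have t2 : Tendsto (fun j : ℕ => 2 * ε 0 / 2 / 2 ^ j) atTop (𝓝 0) :=
      tendsto_const_nhds.div_atTop (tendsto_pow_atTop_atTop_of_one_lt one_lt_two)
    filter_upwards [t1.eventually (ge_mem_nhds (show 0 < 1 - ρ by linarith)),
      t2.eventually (ge_mem_nhds (half_pos hη))] with j a b
    have := hgeo 0 j
    rw [zero_add] at this
    exact ⟨by linarith, by linarith⟩
  have hd : DifferentiableOn ℂ f (ball 0 1) := by
    refine TendstoLocallyUniformlyOn.differentiableOn (F := F) (φ := atTop) ?_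
      (Eventually.of_forall fun j => (h j).1.1) isOpen_ball
    rw [Metric.tendstoLocallyUniformlyOn_iff]
    intro η hη x hx
    have hx' : ‖x‖ < 1 := by simpa using hx
    refine ⟨ball 0 ((1 + ‖x‖) / 2), mem_nhdsWithin_of_mem_nhds (isOpen_ball.mem_nhds
      (mem_ball_zero_iff.2 (by linarith))), ?_⟩
    filter_upwards [hev ((1 + ‖x‖) / 2) (by linarith) (η / 2) (half_pos hη)] with j hj y hy
    rw [dist_comm, dist_eq_norm]
    linarith [hclose j y ((mem_ball_zero_iff.1 hy).le.trans hj.1), hj.2]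
  have hhalf : ∀ j : ℕ, ∀ z : ℂ, ‖z‖ ≤ 1 / 2 → ‖F j z - f z‖ ≤ 2 * ε j := fun j z hz =>
    hclose j z (hz.trans (by
      have : (0 : ℝ) ≤ j := Nat.cast_nonneg j
      have : 1 / ((j : ℝ) + 2) ≤ 1 / 2 := by gcongr; linarith
      linarith))
  have h1 : ‖deriv f 0 - 1‖ ≤ 1 / 2 := by
    have := co_close (h 0).1.1 hd (hhalf 0) 1
    rw [hF0, hε0, norm_sub_rev] at this
    simp only [co, iteratedDeriv_one, deriv_id', Nat.factorial_one, Nat.cast_one, div_one] at this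
    linarith
  refine ⟨f, hd, inj_lim F f (fun j => (h j).1.1) (fun j => (h j).1.2.1) hd
    (fun ρ hρ η hη => ?_) (fun h0 => by rw [h0] at h1; norm_num at h1), fun z hz => ?_, h1,
    fun j => ?_⟩
  · obtain ⟨j, hj⟩ := (hev ρ hρ η hη).exists
    exact ⟨j, fun z hz => (hclose j z (hz.trans hj.1)).trans hj.2⟩
  · obtain ⟨j, hj⟩ := (hev ‖z‖ (mem_ball_zero_iff.1 hz) 1 one_pos).exists
    exact le_of_tendsto' (ht j z hj.1).norm fun i => ((h i).1.2.2 z hz).1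
  · obtain ⟨N, a1, a2, a3⟩ := (h j).2.2.2.2
    refine ⟨N, a1, ?_⟩
    have b1 := co_close (h (j + 1)).1.1 hd (hhalf (j + 1)) N
    linarith [norm_sub_norm_le (co (F (j + 1)) N) (co f N)]

end Pool.Agent.MP_6e64bc_an.H26
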