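import Pool.Agent.MP_6e64bc_an.H26.DyVal
import Pool.Agent.MP_6e64bc_an.H26.Core

namespace Pool.Agent.MP_6e64bc_an.H26

open Complex Dy

noncomputable def cx (a b : Dy) : ℂ := ⟨a.val, b.val⟩

@[simp] theorem cx_re (a b : Dy) : (cx a b).re = a.val := rfl
@[simp] theorem cx_im (a b : Dy) : (cx a b).im = b.val := rfl

noncomputable def cC : ℂ := cx cr ci
noncomputable def Cell.w0 (e : Cell) : ℂ := cx e.wr e.wi
noncomputable def Cell.b (e : Cell) : ℂ := cx e.br e.bi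
noncomputable def Cell.g (e : Cell) : ℂ := cx e.gr e.gi
noncomputable def UU (α κ : ℝ) (β γ s : ℂ) : ℝ :=
  α + 2 * (β * s).re + 2 * (γ * s ^ 2).re + κ * normSq s
def Cell.In (e : Cell) (y : ℂ) : Prop := ‖y - (e.w0 ^ 2 + cC)‖ ≤ (rad e).val
noncomputable def Cell.u (e : Cell) (y : ℂ) : ℝ :=
  UU e.al.val e.ka.val e.b e.g (y - (e.w0 ^ 2 + cC))

theorem UU_shift (g : Cell) (dr di : Dy) (t : ℂ) :
    UU g.al.val g.ka.val g.b g.g (cx dr di + t) = (L0 g dr di).val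
      + 2 * (cx (L1r g dr di) (L1i g dr di) * t).re + 2 * (g.g * t ^ 2).re + g.ka.val * normSq t := by
  simp only [UU, L0, L1r, L1i, Cell.b, Cell.g, val_add, val_sub, val_mul, val_nat, pow_two, mul_re,
    mul_im, add_re, add_im, cx_re, cx_im, normSq_apply]
  push_cast
  ring

theorem okT_sound (xa : Dy) (g : Cell) (dr di : Dy) (h : okT xa g dr di = true) (t : ℂ)
    (ht : ‖t‖ ≤ xa.val) : ‖cx dr di + t‖ ≤ (rad g).val := by
  simp only [okT, Bool.and_eq_true, Dy.le_iff, val_add, val_sub, val_mul] at h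
  obtain ⟨h1, h2⟩ := h
  have : ‖cx dr di‖ ≤ (rad g).val - xa.val := by
    refine le_of_sq_le_sq ?_ (by linarith)
    rw [Complex.sq_norm, normSq_apply, cx_re, cx_im, pow_two]; exact h2
  calc ‖cx dr di + t‖ ≤ ‖cx dr di‖ + ‖t‖ := norm_add_le _ _
    _ ≤ _ := by linarith

theorem d_eq (a b : Dy) (g : Cell) : cx (dR a g) (dI b g) = cx a b - (g.w0 ^ 2 + cC) := by
  apply Complex.ext <;>
  simp only [dR, dI, Cell.w0, cC, val_sub, val_mul, val_nat, pow_two, mul_re,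
    mul_im, add_re, add_im, sub_re, sub_im, cx_re, cx_im] <;> push_cast <;> ring

theorem UU_expand (α κ : ℝ) (β γ W x : ℂ) :
    UU α κ β γ (W * (2 * x + x ^ 2)) = α + 2 * ((2 * (β * W)) * x).re
      + 2 * ((β * W + 4 * (γ * W ^ 2)) * x ^ 2).re + (4 * κ * normSq W) * normSq x
      + (2 * (γ * (W ^ 2 * (4 * x ^ 3 + x ^ 4))).re
        + κ * (normSq W * (normSq x * (4 * x.re + normSq x)))) := by
  have e1 : β * (W * (2 * x + x ^ 2)) = (β * W) * x + (β * W) * x + (β * W) * x ^ 2 := by ring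
  have e2 : γ * (W * (2 * x + x ^ 2)) ^ 2
      = 4 * (γ * W ^ 2) * x ^ 2 + γ * (W ^ 2 * (4 * x ^ 3 + x ^ 4)) := by ring
  have e3 : (2 * (β * W)) * x = (β * W) * x + (β * W) * x := by ring
  have e4 : normSq (W * (2 * x + x ^ 2)) = normSq W * (normSq x * (4 + 4 * x.re + normSq x)) := by
    rw [show 2 * x + x ^ 2 = x * (2 + x) by ring, normSq_mul, normSq_mul]
    congr 2
    simp [normSq_apply]; ring
  rw [UU, e1, e2, e3, e4, add_mul (β * W)]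
  simp only [add_re]
  ring

theorem u3_bound (κ Ng ξ : ℝ) (γ W x : ℂ) (hx : ‖x‖ ≤ ξ) (hg : 2 * ‖γ‖ ≤ Ng) :
    |2 * (γ * (W ^ 2 * (4 * x ^ 3 + x ^ 4))).re
        + κ * (normSq W * (normSq x * (4 * x.re + normSq x)))|
      ≤ ((Ng + |κ|) * normSq W) * (ξ ^ 3 * (4 + ξ)) := by
  have h0 : 0 ≤ ξ := (norm_nonneg _).trans hx
  have hW := normSq_nonneg W
  have h1 : ‖W ^ 2 * (4 * x ^ 3 + x ^ 4)‖ ≤ normSq W * (ξ ^ 3 * (4 + ξ)) := by
    rw [norm_mul, norm_pow, Complex.sq_norm]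
    gcongr
    calc ‖4 * x ^ 3 + x ^ 4‖ ≤ ‖4 * x ^ 3‖ + ‖x ^ 4‖ := norm_add_le _ _
      _ = 4 * ‖x‖ ^ 3 + ‖x‖ ^ 4 := by simp
      _ ≤ 4 * ξ ^ 3 + ξ ^ 4 := by gcongr
      _ = _ := by ring
  have h2 := two_re_le γ _ _ _ hg h1
  have hns : normSq x ≤ ξ ^ 2 := by rw [← Complex.sq_norm]; gcongr
  have hns0 : 0 ≤ normSq x := normSq_nonneg x
  have h3 : |κ * (normSq W * (normSq x * (4 * x.re + normSq x)))|
      ≤ |κ| * (normSq W * (ξ ^ 2 * (4 * ξ + ξ ^ 2))) := by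
    rw [abs_mul, abs_mul, abs_mul, abs_of_nonneg hW, abs_of_nonneg hns0]
    gcongr
    have := abs_le.1 ((abs_re_le_norm x).trans hx)
    rw [abs_le]; constructor <;> nlinarith
  calc _ ≤ _ := abs_add_le _ _
    _ ≤ Ng * (normSq W * (ξ ^ 3 * (4 + ξ))) + |κ| * (normSq W * (ξ ^ 2 * (4 * ξ + ξ ^ 2))) :=
        add_le_add h2 h3
    _ = _ := by ring

theorem chk_basic (e p m : Cell) (h : chk e p m = true) :
    e.w0 ≠ 0 ∧ 0 < e.X.val ∧ 3 * e.X.val ≤ 1 := by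
  simp only [chk, chk3, Bool.and_eq_true, Dy.le_iff, Dy.lt_iff, val_add, val_mul, val_nat] at h
  obtain ⟨⟨⟨⟨⟨⟨⟨⟨-, -⟩, -⟩, h4⟩, h5⟩, h6⟩, -⟩, -⟩, -⟩ := h
  push_cast at h4 h5 h6
  refine ⟨fun h0 => ?_, h5, h6⟩
  have h1 : e.wr.val = 0 := congrArg re h0
  have h2 : e.wi.val = 0 := congrArg im h0
  rw [h1, h2] at h4; simp at h4

theorem lam_pos : 0 < lam.val := by
  show (0 : ℝ) < ((332904107605672 : ℤ) : ℝ) / 2 ^ 48
  positivity

theorem fin2_sound (X al mu l0 p1r p1i p2r p2i p11 v1r v1i v2r v2i v11 g4 : Dy)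
    (h : fin2 X al mu l0 p1r p1i p2r p2i p11 v1r v1i v2r v2i v11 g4 = true) (x : ℂ) (u3 u : ℝ)
    (hx : ‖x‖ ≤ X.val) (h3 : 3 * X.val ≤ 1) (hμ : 0 ≤ mu.val) (hG : 0 ≤ g4.val)
    (hu3 : |u3| ≤ g4.val * (X.val ^ 3 * (4 + X.val)))
    (hu : u = al.val + 2 * (cx v1r v1i * x).re + 2 * (cx v2r v2i * x ^ 2).re
      + v11.val * normSq x + u3) :
    al.val / 2 ≤ u ∧ u ≤ 3 / 2 * al.val ∧ mu.val * ‖1 + x‖ * u ≤
      l0.val + 2 * (cx p1r p1i * x).re + 2 * (cx p2r p2i * x ^ 2).re + p11.val * normSq x := by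
  simp only [fin2, fin3, Bool.and_eq_true, Dy.le_iff] at h
  obtain ⟨k1, k2⟩ := h
  simp only [val_add, val_mul, val_sub, val_nat, val_hf, val_ab] at k1 k2
  norm_num only [Nat.cast_ofNat, Nat.cast_one] at k1 k2
  refine core X.val al.val v11.val g4.val mu.val l0.val p11.val _ _ _ _ _ u3 u x
    (cx v1r v1i) (cx v2r v2i) (cx p1r p1i) (cx p2r p2i) hx h3 hμ hG hu3 hu
    (norm_le_nb v1r v1i _ rfl rfl) (add_le_add (norm_le_nb v2r v2i _ rfl rfl) le_rfl) k1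
    (norm_le_nb _ _ _ ?_ ?_) (norm_le_nb _ _ _ ?_ ?_) le_rfl k2
  all_goals
    simp only [val_add, val_mul, val_sub, val_hf, mul_re, mul_im, add_re, add_im, sub_re, sub_im,
      cx_re, cx_im, ofReal_re, ofReal_im, div_ofNat_re, div_ofNat_im]
    ring

theorem chk_sound (e p m : Cell) (h : chk e p m = true) (x : ℂ) (hx : ‖x‖ ≤ e.X.val) :
    p.In (e.w0 * (1 + x)) ∧ m.In (-(e.w0 * (1 + x))) ∧
    e.al.val / 2 ≤ e.u ((e.w0 * (1 + x)) ^ 2 + cC) ∧ e.u ((e.w0 * (1 + x)) ^ 2 + cC) ≤ 1 ∧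
    2 * lam.val * ‖e.w0 * (1 + x)‖ * e.u ((e.w0 * (1 + x)) ^ 2 + cC)
      ≤ p.u (e.w0 * (1 + x)) + m.u (-(e.w0 * (1 + x))) := by
  simp only [chk, chk3, Bool.and_eq_true] at h
  obtain ⟨⟨⟨⟨⟨⟨⟨⟨h1, h2⟩, h3⟩, h4⟩, h5⟩, h6⟩, h7⟩, h8⟩, h9⟩ := h
  simp only [Dy.le_iff, Dy.lt_iff, val_add, val_mul, val_nat] at h3 h4 h5 h6 h7 h8
  push_cast at h4 h5 h6 h7 h8
  have hA : ‖e.w0‖ ≤ e.A.val := by
    refine le_of_sq_le_sq ?_ h7.le
    rw [Complex.sq_norm, normSq_apply, pow_two]; exact h3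
  have ht : ‖e.w0 * x‖ ≤ (mul e.X e.A).val := by
    rw [val_mul, norm_mul, mul_comm]; gcongr
  have ep : e.w0 * (1 + x) - (p.w0 ^ 2 + cC) = cx (dR e.wr p) (dI e.wi p) + e.w0 * x := by
    rw [d_eq, Cell.w0]; ring
  have em : -(e.w0 * (1 + x)) - (m.w0 ^ 2 + cC)
      = cx (dR (sub (nat 0) e.wr) m) (dI (sub (nat 0) e.wi) m) + -(e.w0 * x) := by
    have : cx (sub (nat 0) e.wr) (sub (nat 0) e.wi) = -e.w0 := by
      apply Complex.ext <;> simp [Cell.w0, val_sub, val_nat]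
    rw [d_eq, this]; ring
  refine ⟨?_, ?_, ?_⟩
  · rw [Cell.In, ep]; exact okT_sound _ _ _ _ h1 _ ht
  · rw [Cell.In, em]; exact okT_sound _ _ _ _ h2 _ (by rwa [norm_neg])
  rw [Cell.u, Cell.u, Cell.u, ep, em, UU_shift, UU_shift,
    show (e.w0 * (1 + x)) ^ 2 + cC - (e.w0 ^ 2 + cC) = e.w0 ^ 2 * (2 * x + x ^ 2) by ring]
  set pr := dR e.wr p
  set pi := dI e.wi p
  set mr := dR (sub (nat 0) e.wr) m
  set mi := dI (sub (nat 0) e.wi) m
  have hnw : normSq (e.w0 ^ 2) = (e.wr.val * e.wr.val + e.wi.val * e.wi.val) *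
      (e.wr.val * e.wr.val + e.wi.val * e.wi.val) := by
    rw [pow_two, normSq_mul, normSq_apply]; rfl
  have hg : 2 * ‖e.g‖ ≤ (nb e.gr e.gi).val := norm_le_nb _ _ _ rfl rfl
  have hlam := lam_pos
  have hub := u3_bound e.ka.val _ _ e.g (e.w0 ^ 2) x hx hg
  rw [fin1] at h9
  obtain ⟨c1, c2, c3⟩ := fin2_sound _ _ _ _ _ _ _ _ _ _ _ _ _ _ _ h9 x
    (2 * (e.g * ((e.w0 ^ 2) ^ 2 * (4 * x ^ 3 + x ^ 4))).re
        + e.ka.val * (normSq (e.w0 ^ 2) * (normSq x * (4 * x.re + normSq x))))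
    (UU e.al.val e.ka.val e.b e.g (e.w0 ^ 2 * (2 * x + x ^ 2))) hx h6
    (by simp only [val_mul, val_nat]; positivity)
    (by
      simp only [val_mul, val_add, val_ab]
      exact mul_nonneg (add_nonneg (le_trans (by positivity) hg) (abs_nonneg _)) (by positivity))
    (by simp only [val_mul, val_add, val_ab]; rw [← hnw]; exact hub)
    (by
      rw [UU_expand]
      have hh : ∀ (a r v v' : ℝ) (V1 V1' V2 V2' : ℂ), V1 = V1' → V2 = V2' → v = v' →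
          a + 2 * (V1 * x).re + 2 * (V2 * x ^ 2).re + v * normSq x + r
            = a + 2 * (V1' * x).re + 2 * (V2' * x ^ 2).re + v' * normSq x + r := by
        intro a r v v' V1 V1' V2 V2' i1 i2 i3; rw [i1, i2, i3]
      apply hh
      · apply Complex.ext <;>
        simp only [Cell.b, Cell.w0, val_add, val_mul, val_sub, val_nat, pow_two, mul_re, mul_im,
          cx_re, cx_im, re_ofNat, im_ofNat] <;> push_cast <;> ring
      · apply Complex.ext <;>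
        simp only [Cell.b, Cell.g, Cell.w0, val_add, val_mul, val_sub, val_nat, pow_two, mul_re,
          mul_im, add_re, add_im, cx_re, cx_im, re_ofNat, im_ofNat] <;> push_cast <;> ring
      · simp only [val_add, val_mul, val_nat, hnw]; push_cast; ring)
  refine ⟨c1, by linarith, ?_⟩
  have hu0 : 0 ≤ UU e.al.val e.ka.val e.b e.g (e.w0 ^ 2 * (2 * x + x ^ 2)) := by
    by_contra hc
    linarith
  have s1 : 2 * lam.val * ‖e.w0 * (1 + x)‖ *
      UU e.al.val e.ka.val e.b e.g (e.w0 ^ 2 * (2 * x + x ^ 2)) ≤ 2 * lam.val * e.A.val * ‖1 + x‖ *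
      UU e.al.val e.ka.val e.b e.g (e.w0 ^ 2 * (2 * x + x ^ 2)) := by
    rw [norm_mul, ← mul_assoc]; gcongr
  refine s1.trans (le_of_eq_of_le ?_ (c3.trans (le_of_eq ?_)))
  · simp only [val_mul, val_nat]; push_cast; ring
  · simp only [Cell.w0, Cell.g, val_add, val_mul, val_sub, val_nat, pow_two, mul_re, mul_im,
      neg_re, neg_im, normSq_apply, cx_re, cx_im]
    push_cast
    ring

end Pool.Agent.MP_6e64bc_an.H26
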